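import Pool.Agent.Lib.MP_40c71d_co_h20.Spl

/-! # Attaching colour classes -/

set_option autoImplicit false

open Finset

namespace Pool.Agent.CLW

variable {V : Type*} [DecidableEq V]

/-- After the removal of any set `Z` of unreserved vertices with the right residue, the rest
of `U` splits into independent `t`-sets. -/
def FlexP (G : SimpleGraph V) (t : ℕ) (U R : Finset V) : Prop :=
  ∀ Z ⊆ U, Disjoint Z R → t ∣ (U \ Z).card → Spl G t (U \ Z)

/-- The same for `U ∪ A`, if the residue of `A` is at most `m`. -/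
def FlexQ (G : SimpleGraph V) (t : ℕ) (U R A : Finset V) (m : ℕ) : Prop :=
  ∀ Z ⊆ U ∪ A, Disjoint Z R → t ∣ ((U ∪ A) \ Z).card → (A \ Z).card % t ≤ m →
    Spl G t ((U ∪ A) \ Z)

variable {G : SimpleGraph V} {t : ℕ}

theorem flexP_of_indep {A : Finset V} (hi : ∀ u ∈ A, ∀ v ∈ A, ¬ G.Adj u v) (R : Finset V) :
    FlexP G t A R := by
  intro Z hZ _ hd
  exact Spl.of_indep (fun u hu v hv => hi u (Finset.sdiff_subset hu) v (Finset.sdiff_subset hv)) hd

theorem flexQ_zero {U R A : Finset V} (h : FlexP G t U R) (hi : ∀ u ∈ A, ∀ v ∈ A, ¬ G.Adj u v)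
    (hd : Disjoint U A) : FlexQ G t U R A 0 := by
  intro Z hZ hZR hdvd hres
  have h1 : t ∣ (A \ Z).card := Nat.dvd_of_mod_eq_zero (Nat.le_zero.1 hres)
  have h2 : (U ∪ A) \ Z = (U \ Z) ∪ (A \ Z) := Finset.union_sdiff_distrib U A Z
  have h3 : Disjoint (U \ Z) (A \ Z) :=
    Finset.disjoint_of_subset_left Finset.sdiff_subset
      (Finset.disjoint_of_subset_right Finset.sdiff_subset hd)
  have h4 : t ∣ (U \ Z).card := by
    rw [h2, Finset.card_union_of_disjoint h3] at hdvd
    exact (Nat.dvd_add_iff_left h1).2 hdvd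
  have h5 : U \ Z = U \ (Z ∩ U) := by
    ext v; simp only [Finset.mem_sdiff, Finset.mem_inter]; tauto
  rw [h2]
  refine Spl.union ?_ ?_ h3
  · rw [h5]
    apply h
    · exact Finset.inter_subset_right
    · exact Finset.disjoint_of_subset_left Finset.inter_subset_left hZR
    · rw [← h5]; exact h4
  · exact Spl.of_indep (fun u hu v hv => hi u (Finset.sdiff_subset hu) v (Finset.sdiff_subset hv)) h1

theorem flexQ_step {U R A X Y : Finset V} {m : ℕ} (h : FlexQ G t U R A m)
    (hA : ∀ u ∈ A, ∀ v ∈ A, ¬ G.Adj u v) (hUA : Disjoint U A) (hX : X ⊆ A) (hY : Y ⊆ U)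
    (hYi : ∀ u ∈ Y, ∀ v ∈ Y, ¬ G.Adj u v) (hXR : Disjoint X R) (hYR : Disjoint Y R)
    (hXY : ∀ u ∈ X, ∀ v ∈ Y, ¬ G.Adj u v) (ht : 0 < t) (hYc : t - 1 ≤ Y.card) :
    FlexQ G t U (R ∪ X ∪ Y) A (m + X.card) := by
  intro Z hZ hZR hdvd hres
  have hZR' : Disjoint Z R := Finset.disjoint_of_subset_right
    (Finset.subset_union_left.trans Finset.subset_union_left) hZR
  by_cases h1 : (A \ Z).card % t ≤ m
  · exact h Z hZ hZR' hdvd h1
  · push Not at h1
    set e := (A \ Z).card % t - m with he
    have hlt : (A \ Z).card % t < t := Nat.mod_lt _ ht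
    obtain ⟨X', hX', hX'c⟩ := Finset.exists_subset_card_eq (s := X) (n := e) (by omega)
    obtain ⟨Y', hY', hY'c⟩ := Finset.exists_subset_card_eq (s := Y) (n := t - e) (by omega)
    have hXZ : Disjoint X Z := Disjoint.symm (Finset.disjoint_of_subset_right
      (Finset.subset_union_right.trans Finset.subset_union_left) hZR)
    have hYZ : Disjoint Y Z := Disjoint.symm (Finset.disjoint_of_subset_right
      Finset.subset_union_right hZR)
    have hX'A : X' ⊆ A := hX'.trans hX
    have hY'U : Y' ⊆ U := hY'.trans hY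
    have hX'Y' : Disjoint X' Y' := Finset.disjoint_of_subset_left hX'A
      (Finset.disjoint_of_subset_right hY'U hUA.symm)
    have hsub : X' ∪ Y' ⊆ (U ∪ A) \ Z := by
      intro v hv
      rw [Finset.mem_sdiff, Finset.mem_union]
      rcases Finset.mem_union.1 hv with h' | h'
      · exact ⟨Or.inr (hX'A h'), Finset.disjoint_left.1 hXZ (hX' h')⟩
      · exact ⟨Or.inl (hY'U h'), Finset.disjoint_left.1 hYZ (hY' h')⟩
    have hcard : (X' ∪ Y').card = t := by
      rw [Finset.card_union_of_disjoint hX'Y', hX'c, hY'c]; omega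
    have hE : (U ∪ A) \ (Z ∪ (X' ∪ Y')) = ((U ∪ A) \ Z) \ (X' ∪ Y') := by
      rw [Finset.sdiff_union_distrib]
      ext v; simp only [Finset.mem_sdiff, Finset.mem_inter]; tauto
    have key : Spl G t ((U ∪ A) \ (Z ∪ (X' ∪ Y'))) := by
      apply h
      · apply Finset.union_subset hZ
        exact Finset.union_subset (hX'A.trans Finset.subset_union_right)
          (hY'U.trans Finset.subset_union_left)
      · rw [Finset.disjoint_union_left, Finset.disjoint_union_left]
        exact ⟨hZR', Finset.disjoint_of_subset_left hX' hXR, Finset.disjoint_of_subset_left hY' hYR⟩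
      · rw [hE, Finset.card_sdiff_of_subset hsub, hcard]
        exact Nat.dvd_sub hdvd (dvd_refl t)
      · have h5 : A \ (Z ∪ (X' ∪ Y')) = (A \ Z) \ X' := by
          ext v
          simp only [Finset.mem_sdiff, Finset.mem_union]
          constructor
          · rintro ⟨ha, hb⟩; tauto
          · rintro ⟨⟨ha, hb⟩, hc⟩
            refine ⟨ha, ?_⟩
            rintro (h' | h' | h')
            · exact hb h'
            · exact hc h'
            · exact Finset.disjoint_left.1 hUA (hY'U h') ha
        have h6 : X' ⊆ A \ Z := by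
          intro v hv
          exact Finset.mem_sdiff.2 ⟨hX'A hv, Finset.disjoint_left.1 hXZ (hX' hv)⟩
        rw [h5, Finset.card_sdiff_of_subset h6, hX'c]
        have h7 : (A \ Z).card = t * ((A \ Z).card / t) + (A \ Z).card % t :=
          (Nat.div_add_mod _ _).symm
        have h8 : (A \ Z).card - e = t * ((A \ Z).card / t) + m := by omega
        rw [h8, Nat.mul_add_mod]
        exact Nat.mod_le _ _
    have h9 : (U ∪ A) \ Z = ((U ∪ A) \ (Z ∪ (X' ∪ Y'))) ∪ (X' ∪ Y') := by
      rw [hE, Finset.sdiff_union_of_subset hsub]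
    rw [h9]
    refine Spl.cons key ?_ hcard ?_
    · rw [hE]; exact Finset.sdiff_disjoint
    · intro u hu v hv hadj
      rcases Finset.mem_union.1 hu with h' | h' <;> rcases Finset.mem_union.1 hv with h'' | h''
      · exact hA u (hX'A h') v (hX'A h'') hadj
      · exact hXY u (hX' h') v (hY' h'') hadj
      · exact hXY v (hX' h'') u (hY' h') hadj.symm
      · exact hYi u (hY' h') v (hY' h'') hadj

theorem flexP_of_flexQ {U R A : Finset V} {m : ℕ} (h : FlexQ G t U R A m) (ht : 0 < t)
    (hm : t - 1 ≤ m ∨ A.card ≤ m) : FlexP G t (U ∪ A) R := by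
  intro Z hZ hZR hd
  apply h Z hZ hZR hd
  rcases hm with hm | hm
  · have := Nat.mod_lt (A \ Z).card ht
    omega
  · exact (Nat.mod_le _ _).trans ((Finset.card_le_card Finset.sdiff_subset).trans hm)

end Pool.Agent.CLW
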