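import Pool.Agent.Lib.MP_40c71d_co_h20.Large

/-! # The case `|V| ≥ 2.9 r` -/

set_option autoImplicit false

open Finset

namespace Pool.Agent.CLW

variable {V : Type*} [Fintype V] [DecidableEq V]

/-- `G` has an equitable colouring with `r` colours: a proper colouring in which any two colour
classes (possibly empty) differ in size by at most one. -/
def EquitablyColorable (G : SimpleGraph V) (r : ℕ) : Prop :=
  ∃ C : G.Coloring (Fin r), ∀ i j : Fin r,
    (univ.filter (fun v => C v = i)).card ≤ (univ.filter (fun v => C v = j)).card + 1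

variable {G : SimpleGraph V} {t q : ℕ}

theorem eqcol_of_spl {t' N N' : ℕ} (htt : t ≤ t' + 1) (htt' : t' ≤ t + 1) {S S' : Finset V}
    (ht : 0 < t) (ht' : 0 < t')
    (hS : Spl G t S) (hS' : Spl G t' S') (hd : Disjoint S S') (hu : S ∪ S' = univ)
    (hc : S.card = N * t) (hc' : S'.card = N' * t') : EquitablyColorable G (N + N') := by
  obtain ⟨M, hM, f, f1, f2, f3⟩ := hS.coloring
  obtain ⟨M', hM', f', f1', f2', f3'⟩ := hS'.coloring
  have e1 : M = N := Nat.eq_of_mul_eq_mul_right ht (hM.symm.trans hc)
  have e2 : M' = N' := Nat.eq_of_mul_eq_mul_right ht' (hM'.symm.trans hc')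
  subst e1 e2
  have hmem : ∀ v, v ∉ S → v ∈ S' := by
    intro v hv
    have : v ∈ S ∪ S' := by rw [hu]; exact Finset.mem_univ v
    exact (Finset.mem_union.1 this).resolve_left hv
  have hlt : ∀ v, (if v ∈ S then f v else M + f' v) < M + M' := by
    intro v
    split_ifs with h
    · have := f1 v h; omega
    · have := f1' v (hmem v h); omega
  let F : V → Fin (M + M') := fun v => ⟨if v ∈ S then f v else M + f' v, hlt v⟩
  have hF : ∀ u v, G.Adj u v → F u ≠ F v := by
    intro u v hadj heq
    have h := congrArg Fin.val heq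
    dsimp only [F] at h
    split_ifs at h with h1 h2 h2
    · exact f2 u h1 v h2 hadj h
    · have := f1 u h1; omega
    · have := f1 v h2; omega
    · exact f2' u (hmem u h1) v (hmem v h2) hadj (by omega)
  have hcard : ∀ i : Fin (M + M'), (univ.filter (fun v => F v = i)).card =
      if i.val < M then t else t' := by
    intro i
    split_ifs with hi
    · rw [← f3 i.val hi]
      congr 1
      ext v
      simp only [Finset.mem_filter, Finset.mem_univ, true_and]
      constructor
      · intro h
        have h' := congrArg Fin.val h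
        dsimp only [F] at h'
        split_ifs at h' with h1
        · exact ⟨h1, h'⟩
        · omega
      · rintro ⟨h1, h2⟩
        apply Fin.ext
        dsimp only [F]
        rw [if_pos h1, h2]
    · have hi' : i.val - M < M' := by have := i.2; omega
      rw [← f3' (i.val - M) hi']
      congr 1
      ext v
      simp only [Finset.mem_filter, Finset.mem_univ, true_and]
      constructor
      · intro h
        have h' := congrArg Fin.val h
        dsimp only [F] at h'
        split_ifs at h' with h1
        · have := f1 v h1; omega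
        · exact ⟨hmem v h1, by omega⟩
      · rintro ⟨h1, h2⟩
        apply Fin.ext
        dsimp only [F]
        have h3 : v ∉ S := fun h => Finset.disjoint_left.1 hd h h1
        rw [if_neg h3, h2]; omega
  refine ⟨SimpleGraph.Coloring.mk F (fun {u v} h => hF u v h), fun i j => ?_⟩
  have e : ∀ i : Fin (M + M'), (univ.filter (fun v => (SimpleGraph.Coloring.mk F
      (fun {u v} h => hF u v h) : G.Coloring (Fin (M + M'))) v = i)).card =
      (univ.filter (fun v => F v = i)).card := fun i => rfl
  rw [e, e, hcard, hcard]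
  split_ifs <;> omega

/-- pure classes of size `t` avoiding `R` -/
theorem pure_classes {c : V → Fin q} (hc : ∀ u v, G.Adj u v → c u ≠ c v) (R : Finset V)
    (hq : 0 < q) (N : ℕ) (h : N * t + R.card + q * t ≤ Fintype.card V) :
    ∃ Z : Finset V, Disjoint Z R ∧ Spl G t Z ∧ Z.card = N * t := by
  induction N with
  | zero => exact ⟨∅, Finset.disjoint_empty_left _, Spl.nil, by simp⟩
  | succ N ih =>
    rw [Nat.succ_mul] at h
    obtain ⟨Z, h1, h2, h3⟩ := ih (by omega)
    have h4 : q * t ≤ ((univ \ Z) \ R).card := by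
      have h5 := Finset.le_card_sdiff R (univ \ Z)
      have h6 := Finset.le_card_sdiff Z (univ : Finset V)
      rw [Finset.card_univ] at h6
      omega
    have h5 : (univ : Finset (Fin q)).Nonempty := ⟨⟨0, hq⟩, Finset.mem_univ _⟩
    obtain ⟨i, _, hi⟩ := Finset.exists_le_card_fiber_of_mul_le_card_of_maps_to
      (s := (univ \ Z) \ R) (t := (univ : Finset (Fin q))) (f := c) (n := t)
      (fun _ _ => Finset.mem_univ _) h5 (by simpa using h4)
    obtain ⟨A, hA, hAc⟩ := Finset.exists_subset_card_eq hi
    have h6 : ∀ v ∈ A, (v ∉ Z ∧ v ∉ R) ∧ c v = i := by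
      intro v hv
      have := hA hv
      simp only [Finset.mem_filter, Finset.mem_sdiff, Finset.mem_univ, true_and] at this
      exact this
    have h7 : Disjoint Z A := by
      rw [Finset.disjoint_left]
      intro v hv hv'
      exact (h6 v hv').1.1 hv
    refine ⟨Z ∪ A, ?_, Spl.cons h2 h7 hAc ?_, ?_⟩
    · rw [Finset.disjoint_union_left]
      refine ⟨h1, ?_⟩
      rw [Finset.disjoint_left]
      intro v hv
      exact (h6 v hv).1.2
    · intro u hu v hv hadj
      exact hc u v hadj ((h6 u hu).2.trans (h6 v hv).2.symm)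
    · rw [Finset.card_union_of_disjoint h7, h3, hAc]; ring

/-- from the flexible set to the colouring -/
theorem eqcol_of_flex {c : V → Fin q} (hc : ∀ u v, G.Adj u v → c u ≠ c v) {R : Finset V}
    (hP : FlexP G t univ R) {t' N N' : ℕ} (ht : 0 < t) (ht' : 0 < t') (htt : t ≤ t' + 1)
    (htt' : t' ≤ t + 1) (hn : Fintype.card V = N * t + N' * t') (hq : 0 < q)
    (hR : R.card + q * t' ≤ N * t) : EquitablyColorable G (N + N') := by
  obtain ⟨Z, h1, h2, h3⟩ := pure_classes (t := t') hc R hq N' (by omega)
  have h4 : (univ \ Z).card = N * t := by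
    rw [Finset.card_sdiff_of_subset (Finset.subset_univ _), Finset.card_univ, h3]; omega
  have h5 : Spl G t (univ \ Z) := hP Z (Finset.subset_univ _) h1 (by rw [h4]; exact Dvd.intro_left N rfl)
  exact eqcol_of_spl htt htt' ht ht' h5 h2 Finset.sdiff_disjoint
    (Finset.sdiff_union_of_subset (Finset.subset_univ _)) h4 h3

variable [DecidableRel G.Adj]

/-- one parameter choice -/
theorem eqcol_param {c : V → Fin q} (hc : ∀ u v, G.Adj u v → c u ≠ c v) {r k x L a b : ℕ}
    (hr : ∀ v, G.degree v ≤ r) (ht : 2 ≤ t) (hx : 1 ≤ x) (ha : 0 < a) (hab : a < b)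
    (hkx : t - 1 ≤ k * x)
    (H1 : b * ((k + 2) * (t - 1)) ≤ (b - a) * L)
    (H2 : 2 * b * x * r + a * q * (L + (t - 1)) ≤ a * Fintype.card V)
    (H3 : (k + 2) * (t - 1) * q + q * L + x * r ≤ Fintype.card V) (hq : 0 < q)
    {t' N N' : ℕ} (ht' : 0 < t') (htt : t ≤ t' + 1)
    (htt' : t' ≤ t + 1) (hn : Fintype.card V = N * t + N' * t')
    (hR : q * ((k + 1) * (t - 1)) + q * t' ≤ N * t) : EquitablyColorable G (N + N') := by
  obtain ⟨R, hP, hRc⟩ := flex_all hc hr ht hx ha hab hkx H1 H2 H3 hq
  exact eqcol_of_flex hc hP (by omega) ht' htt htt' hn hq (by omega)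

end Pool.Agent.CLW
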