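import Pool.Agent.Lib.MP_40c71d_co_h20.Big

/-! # The numerical choices for `|V| ≥ 2.9 r` -/

set_option autoImplicit false

open Finset

namespace Pool.Agent.CLW

variable {V : Type*} [Fintype V] [DecidableEq V]
variable {G : SimpleGraph V} [DecidableRel G.Adj] {q : ℕ}

/-- both choices of the majority size -/
theorem eqcol_two {c : V → Fin q} (hc : ∀ u v, G.Adj u v → c u ≠ c v) {r s p : ℕ}
    (hr : ∀ v, G.degree v ≤ r) (hq : 0 < q) (hqr : 100 * q ≤ r) (hn : Fintype.card V = r * s + p)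
    (hp : p < r) (hs : 2 ≤ s)
    (H : ∀ t, (t = s ∧ 2 * p < r ∨ t = s + 1 ∧ r ≤ 2 * p) → ∃ k x L a b : ℕ, 1 ≤ x ∧ 0 < a ∧ a < b ∧
      t - 1 ≤ k * x ∧ k ≤ 11 ∧ b * ((k + 2) * (t - 1)) ≤ (b - a) * L ∧
      2 * b * x * r + a * q * (L + (t - 1)) ≤ a * Fintype.card V ∧
      (k + 2) * (t - 1) * q + q * L + x * r ≤ Fintype.card V) :
    EquitablyColorable G r := by
  by_cases h : 2 * p < r
  · obtain ⟨k, x, L, a, b, h1, h2, h3, h4, h5, h6, h7, h8⟩ := H s (Or.inl ⟨rfl, h⟩)
    have e : r = (r - p) + p := by omega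
    rw [e]
    refine eqcol_param hc hr (t := s) (by omega) h1 h2 h3 h4 h6 h7 h8 hq (t' := s + 1)
      (by omega) (by omega) (by omega) ?_ ?_
    · rw [hn]
      have : r * s = (r - p) * s + p * s := by rw [← Nat.add_mul]; congr 1
      rw [this]; ring
    · have g1 : (k + 1) * (s - 1) ≤ 12 * (s - 1) := Nat.mul_le_mul_right _ (by omega)
      have g2 : q * ((k + 1) * (s - 1)) ≤ q * (12 * (s - 1)) := Nat.mul_le_mul_left _ g1
      have g3 : 50 * q ≤ r - p := by omega
      have g4 : 50 * q * s ≤ (r - p) * s := Nat.mul_le_mul_right _ g3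
      have g5 : q * (12 * (s - 1)) + q * (s + 1) ≤ 50 * q * s := by
        have : 12 * (s - 1) + (s + 1) ≤ 50 * s := by omega
        calc q * (12 * (s - 1)) + q * (s + 1) = q * (12 * (s - 1) + (s + 1)) := by ring
          _ ≤ q * (50 * s) := Nat.mul_le_mul_left _ this
          _ = 50 * q * s := by ring
      omega
  · obtain ⟨k, x, L, a, b, h1, h2, h3, h4, h5, h6, h7, h8⟩ := H (s + 1) (Or.inr ⟨rfl, by omega⟩)
    have e : r = p + (r - p) := by omega
    rw [e]
    refine eqcol_param hc hr (t := s + 1) (by omega) h1 h2 h3 h4 h6 h7 h8 hq (t' := s)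
      (by omega) (by omega) (by omega) ?_ ?_
    · rw [hn]
      have : r * s = (r - p) * s + p * s := by rw [← Nat.add_mul]; congr 1; omega
      rw [this]; ring
    · have g1 : (k + 1) * (s + 1 - 1) ≤ 12 * (s + 1 - 1) := Nat.mul_le_mul_right _ (by omega)
      have g2 : q * ((k + 1) * (s + 1 - 1)) ≤ q * (12 * (s + 1 - 1)) := Nat.mul_le_mul_left _ g1
      have g3 : 50 * q ≤ p := by omega
      have g4 : 50 * q * (s + 1) ≤ p * (s + 1) := Nat.mul_le_mul_right _ g3
      have g5 : q * (12 * (s + 1 - 1)) + q * s ≤ 50 * q * (s + 1) := by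
        have : 12 * (s + 1 - 1) + s ≤ 50 * (s + 1) := by omega
        calc q * (12 * (s + 1 - 1)) + q * s = q * (12 * (s + 1 - 1) + s) := by ring
          _ ≤ q * (50 * (s + 1)) := Nat.mul_le_mul_left _ this
          _ = 50 * q * (s + 1) := by ring
      omega

/-- the case `|V| ≥ 2.9 r` -/
theorem big_case {c : V → Fin q} (hc : ∀ u v, G.Adj u v → c u ≠ c v) {r : ℕ}
    (hr : ∀ v, G.degree v ≤ r) (hq : 0 < q) (hqr : 100 * q ≤ r)
    (hbig : 29 * r ≤ 10 * Fintype.card V) : EquitablyColorable G r := by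
  have hr0 : 0 < r := by omega
  set n := Fintype.card V with hn
  obtain ⟨s, p, hsp, hp⟩ : ∃ s p, n = r * s + p ∧ p < r :=
    ⟨n / r, n % r, (Nat.div_add_mod n r).symm, Nat.mod_lt _ hr0⟩
  have hs2 : 2 ≤ s := by
    by_contra hcon
    have h1 : s ≤ 1 := by omega
    have h2 : r * s ≤ r * 1 := Nat.mul_le_mul_left _ h1
    omega
  have hrs : 100 * q * s ≤ r * s := Nat.mul_le_mul_right _ hqr
  refine eqcol_two hc hr hq hqr hsp hp hs2 ?_
  rw [← hn]
  intro t ht
  have hts : t - 1 ≤ s := by rcases ht with ⟨h, _⟩ | ⟨h, _⟩ <;> omega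
  have ht2 : 2 ≤ t := by rcases ht with ⟨h, _⟩ | ⟨h, _⟩ <;> omega
  have hqts : q * (t - 1) ≤ q * s := Nat.mul_le_mul_left _ hts
  have hqs : 100 * (q * s) ≤ r * s := by rw [← mul_assoc]; exact hrs
  by_cases h6 : 6 ≤ s
  · refine ⟨11, s / 6, 33 * (t - 1), 3, 5, by omega, by norm_num, by norm_num, by omega, le_rfl,
      by omega, ?_, ?_⟩
    · have h7 : s / 6 * 6 ≤ s := Nat.div_mul_le_self s 6
      have h8 : (s / 6 * r) * 6 ≤ r * s := by
        calc (s / 6 * r) * 6 = r * (s / 6 * 6) := by ring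
          _ ≤ r * s := Nat.mul_le_mul_left _ h7
      have e1 : 2 * 5 * (s / 6) * r = 10 * (s / 6 * r) := by ring
      have e2 : 3 * q * (33 * (t - 1) + (t - 1)) = 102 * (q * (t - 1)) := by ring
      rw [e1, e2, hsp]
      omega
    · have h7 : s / 6 * 6 ≤ s := Nat.div_mul_le_self s 6
      have h8 : (s / 6 * r) * 6 ≤ r * s := by
        calc (s / 6 * r) * 6 = r * (s / 6 * 6) := by ring
          _ ≤ r * s := Nat.mul_le_mul_left _ h7
      have e1 : (11 + 2) * (t - 1) * q = 13 * (q * (t - 1)) := by ring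
      have e2 : q * (33 * (t - 1)) = 33 * (q * (t - 1)) := by ring
      rw [e1, e2, hsp]
      omega
  · push Not at h6
    by_cases h4 : 4 ≤ s
    · have hrs4 : r * 4 ≤ r * s := Nat.mul_le_mul_left _ h4
      refine ⟨5, 1, 28 * (t - 1), 3, 4, le_rfl, by norm_num, by norm_num, by omega, by norm_num,
        by omega, ?_, ?_⟩
      · have e2 : 3 * q * (28 * (t - 1) + (t - 1)) = 87 * (q * (t - 1)) := by ring
        rw [e2, hsp]
        omega
      · have e1 : (5 + 2) * (t - 1) * q = 7 * (q * (t - 1)) := by ring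
        have e2 : q * (28 * (t - 1)) = 28 * (q * (t - 1)) := by ring
        rw [e1, e2, hsp]
        omega
    · push Not at h4
      rcases ht with ⟨ht, hpr⟩ | ⟨ht, hpr⟩
      · -- `t = s`, so `s = 3`
        have hs3 : s = 3 := by
          by_contra hcon
          have hs2' : s = 2 := by omega
          rw [hs2'] at hsp
          omega
        subst ht
        subst hs3
        refine ⟨2, 1, 40, 4, 5, le_rfl, by norm_num, by norm_num, by norm_num, by norm_num,
          by norm_num, ?_, ?_⟩ <;> omega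
      · subst ht
        by_cases hs3 : s = 3
        · subst hs3
          refine ⟨3, 1, 75, 4, 5, le_rfl, by norm_num, by norm_num, by norm_num, by norm_num,
            by norm_num, ?_, ?_⟩ <;> omega
        · have hs2' : s = 2 := by omega
          subst hs2'
          refine ⟨2, 1, 48, 5, 6, le_rfl, by norm_num, by norm_num, by norm_num, by norm_num,
            by norm_num, ?_, ?_⟩ <;> omega

end Pool.Agent.CLW
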