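import Pool.Agent.Lib.MP_40c71d_co_h20.Pieces

/-! # All colour classes are attached -/

set_option autoImplicit false

open Finset

namespace Pool.Agent.CLW

variable {V : Type*} [Fintype V] [DecidableEq V]
variable {G : SimpleGraph V} [DecidableRel G.Adj] {t q : ℕ}

/-- number of neighbours of `v` in `U` -/
def dg (G : SimpleGraph V) [DecidableRel G.Adj] (v : V) (U : Finset V) : ℕ :=
  (U.filter (fun u => G.Adj v u)).card

theorem dg_le_degree (v : V) (U : Finset V) : dg G v U ≤ G.degree v := by
  unfold dg
  rw [← SimpleGraph.card_neighborFinset_eq_degree]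
  apply Finset.card_le_card
  intro u hu
  rw [SimpleGraph.mem_neighborFinset]
  exact (Finset.mem_filter.1 hu).2

theorem card_free (X U : Finset V) : U.card ≤ (free G X U).card + ∑ v ∈ X, dg G v U := by
  have h1 : U ⊆ free G X U ∪ X.biUnion (fun v => U.filter (fun u => G.Adj v u)) := by
    intro u hu
    rw [Finset.mem_union, mem_free, Finset.mem_biUnion]
    by_cases h : ∀ v ∈ X, ¬ G.Adj v u
    · exact Or.inl ⟨hu, h⟩
    · push Not at h
      obtain ⟨v, hv, hadj⟩ := h
      exact Or.inr ⟨v, hv, Finset.mem_filter.2 ⟨hu, hadj⟩⟩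
  calc U.card ≤ _ := Finset.card_le_card h1
    _ ≤ _ := Finset.card_union_le _ _
    _ ≤ _ := by
      have := Finset.card_biUnion_le (s := X) (t := fun v => U.filter (fun u => G.Adj v u))
      unfold dg
      omega

theorem sum_dg (S U : Finset V) : ∑ v ∈ S, dg G v U = ∑ u ∈ U, dg G u S := by
  unfold dg
  have := Finset.sum_card_bipartiteAbove_eq_sum_card_bipartiteBelow (s := S) (t := U) (fun v u => G.Adj v u)
  unfold Finset.bipartiteAbove Finset.bipartiteBelow at this
  rw [this]
  apply Finset.sum_congr rfl
  intro u hu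
  congr 1
  ext v
  simp only [Finset.mem_filter, G.adj_comm]

theorem sum_dg_le {r : ℕ} (hr : ∀ v, G.degree v ≤ r) (S U : Finset V) :
    ∑ v ∈ S, dg G v U ≤ r * U.card := by
  rw [sum_dg]
  calc ∑ u ∈ U, dg G u S ≤ ∑ _u ∈ U, r := Finset.sum_le_sum (fun u _ => (dg_le_degree u S).trans (hr u))
    _ = r * U.card := by rw [Finset.sum_const, smul_eq_mul, mul_comm]

theorem sum_dg_le' {r : ℕ} (hr : ∀ v, G.degree v ≤ r) (X U : Finset V) :
    ∑ v ∈ X, dg G v U ≤ X.card * r := by
  calc ∑ u ∈ X, dg G u U ≤ ∑ _u ∈ X, r := Finset.sum_le_sum (fun u _ => (dg_le_degree u U).trans (hr u))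
    _ = X.card * r := by rw [Finset.sum_const, smul_eq_mul]

theorem card_clsU (c : V → Fin q) (J : Finset (Fin q)) :
    (clsU c J).card = ∑ i ∈ J, (cls c i).card := by
  have h := Finset.card_eq_sum_card_fiberwise (s := clsU c J) (t := J) (f := c)
    (fun v hv => mem_clsU.1 hv)
  rw [h]
  apply Finset.sum_congr rfl
  intro i hi
  congr 1
  ext v
  rw [Finset.mem_filter, mem_clsU, mem_cls]
  constructor
  · rintro ⟨_, h⟩; exact h
  · intro h; exact ⟨by rw [h]; exact hi, h⟩

/-- the large colours -/
def lg (c : V → Fin q) (L : ℕ) : Finset (Fin q) := univ.filter (fun i => L ≤ (cls c i).card)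

theorem mem_lg {c : V → Fin q} {L : ℕ} {i : Fin q} : i ∈ lg c L ↔ L ≤ (cls c i).card := by
  simp [lg]

theorem card_le_lg (c : V → Fin q) {L : ℕ} {J : Finset (Fin q)} (hJ : lg c L ⊆ J) :
    Fintype.card V ≤ (clsU c J).card + q * L := by
  have h1 : (univ : Finset V) = clsU c J ∪ clsU c (univ \ J) := by
    ext v
    simp only [Finset.mem_univ, Finset.mem_union, mem_clsU, Finset.mem_sdiff, true_and, true_iff]
    exact em _
  have h2 : (clsU c (univ \ J)).card ≤ q * L := by
    rw [card_clsU]
    calc ∑ i ∈ univ \ J, (cls c i).card ≤ ∑ _i ∈ univ \ J, L := by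
          apply Finset.sum_le_sum
          intro i hi
          have : i ∉ lg c L := fun h => (Finset.mem_sdiff.1 hi).2 (hJ h)
          rw [mem_lg] at this
          omega
      _ = (univ \ J).card * L := by rw [Finset.sum_const, smul_eq_mul]
      _ ≤ q * L := by
          apply Nat.mul_le_mul_right
          calc (univ \ J).card ≤ (univ : Finset (Fin q)).card := Finset.card_le_card Finset.sdiff_subset
            _ = q := by simp
  calc Fintype.card V = (univ : Finset V).card := Finset.card_univ.symm
    _ = _ := by rw [h1]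
    _ ≤ _ := Finset.card_union_le _ _
    _ ≤ _ := by omega

theorem lg_card_le {c : V → Fin q} {L : ℕ} {J : Finset (Fin q)} (hJ : J ⊆ lg c L) :
    J.card * L ≤ (clsU c J).card := by
  rw [card_clsU, ← smul_eq_mul, ← Finset.sum_const]
  exact Finset.sum_le_sum (fun i hi => mem_lg.1 (hJ hi))

theorem mul_cancel_le {b x y : ℕ} (hb : 0 < b) (h : b * x ≤ b * y) : x ≤ y :=
  Nat.le_of_mul_le_mul_left h hb

/-- choice of the next large class -/
theorem next_large {c : V → Fin q} {r k x L a b : ℕ} (hr : ∀ v, G.degree v ≤ r) (ht : 2 ≤ t)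
    (hx : 1 ≤ x) (ha : 0 < a) (hab : a < b)
    (H1 : b * ((k + 2) * (t - 1)) ≤ (b - a) * L)
    (H2 : 2 * b * x * r + a * q * (L + (t - 1)) ≤ a * Fintype.card V)
    {J : Finset (Fin q)} (hJ : J.Nonempty) (hJL : J ⊂ lg c L) :
    ∃ i ∈ lg c L, i ∉ J ∧ ∃ W ⊆ cls c i, W.card = t - 1 ∧
      ∀ X ⊆ W, X.card ≤ x → J.card * ((k + 2) * (t - 1)) ≤ (free G X (clsU c J)).card := by
  set U := clsU c J with hU
  have hUL : J.card * L ≤ U.card := lg_card_le hJL.1
  have hb : 0 < b := by omega
  have hL : t - 1 ≤ L := by
    by_contra hcon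
    push Not at hcon
    have h1 : (b - a) * L ≤ b * L := Nat.mul_le_mul_right _ (Nat.sub_le _ _)
    have h2 : b * L < b * ((k + 2) * (t - 1)) := by
      apply Nat.mul_lt_mul_of_pos_left _ hb
      calc L < t - 1 := hcon
        _ = 1 * (t - 1) := by ring
        _ ≤ (k + 2) * (t - 1) := Nat.mul_le_mul_right _ (by omega)
    omega
  -- the common conclusion
  have concl : ∀ X : Finset V, b * (∑ v ∈ X, dg G v U) ≤ a * U.card →
      J.card * ((k + 2) * (t - 1)) ≤ (free G X U).card := by
    intro X hX
    apply mul_cancel_le hb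
    have h1 := card_free (G := G) X U
    have h2 : b * U.card ≤ b * (free G X U).card + b * (∑ v ∈ X, dg G v U) := by
      rw [← Nat.mul_add]; exact Nat.mul_le_mul_left _ h1
    have h3 : (b - a) * U.card = b * U.card - a * U.card := Nat.sub_mul _ _ _
    have h4 : a * U.card ≤ b * U.card := Nat.mul_le_mul_right _ hab.le
    have h5 : b * (J.card * ((k + 2) * (t - 1))) = J.card * (b * ((k + 2) * (t - 1))) := by ring
    have h6 : J.card * (b * ((k + 2) * (t - 1))) ≤ J.card * ((b - a) * L) := Nat.mul_le_mul_left _ H1
    have h7 : J.card * ((b - a) * L) = (b - a) * (J.card * L) := by ring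
    have h8 : (b - a) * (J.card * L) ≤ (b - a) * U.card := Nat.mul_le_mul_left _ hUL
    omega
  by_cases hcase : b * x * r ≤ a * U.card
  · obtain ⟨i, hi, hiJ⟩ := Finset.exists_of_ssubset hJL
    obtain ⟨W, hW, hWc⟩ := Finset.exists_subset_card_eq (s := cls c i) (n := t - 1)
      (hL.trans (mem_lg.1 hi))
    refine ⟨i, hi, hiJ, W, hW, hWc, fun X hX hXc => ?_⟩
    apply concl
    calc b * (∑ v ∈ X, dg G v U) ≤ b * (X.card * r) := Nat.mul_le_mul_left _ (sum_dg_le' hr X U)
      _ ≤ b * (x * r) := Nat.mul_le_mul_left _ (Nat.mul_le_mul_right _ hXc)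
      _ = b * x * r := by ring
      _ ≤ a * U.card := hcase
  · push Not at hcase
    set S := clsU c (lg c L \ J) with hS
    set good := S.filter (fun v => b * x * dg G v U ≤ a * U.card) with hgood
    set bad := S.filter (fun v => ¬ (b * x * dg G v U ≤ a * U.card)) with hbad
    have hgb : good.card + bad.card = S.card := by
      rw [hgood, hbad]
      exact Finset.card_filter_add_card_filter_not _
    have hUpos : 0 < U.card := by
      have h1 : 1 ≤ J.card := Finset.card_pos.2 hJ
      have h2 : 1 * L ≤ J.card * L := Nat.mul_le_mul_right _ h1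
      omega
    have hbadc : a * bad.card ≤ b * x * r := by
      have h1 : ∑ v ∈ bad, a * U.card ≤ ∑ v ∈ bad, b * x * dg G v U := by
        apply Finset.sum_le_sum
        intro v hv
        have := (Finset.mem_filter.1 hv).2
        omega
      rw [Finset.sum_const, smul_eq_mul, ← Finset.mul_sum] at h1
      have h2 := sum_dg_le hr bad U
      have h3 : b * x * (∑ v ∈ bad, dg G v U) ≤ b * x * (r * U.card) := Nat.mul_le_mul_left _ h2
      have h4 : U.card * (a * bad.card) ≤ U.card * (b * x * r) := by
        calc U.card * (a * bad.card) = bad.card * (a * U.card) := by ring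
          _ ≤ _ := h1
          _ ≤ _ := h3
          _ = _ := by ring
      exact mul_cancel_le hUpos h4
    have hSc : (clsU c (lg c L)).card = U.card + S.card := by
      have : clsU c (lg c L) = U ∪ S := by
        ext v
        rw [Finset.mem_union, hU, hS, mem_clsU, mem_clsU, mem_clsU, Finset.mem_sdiff]
        constructor
        · intro h
          by_cases h' : c v ∈ J
          · exact Or.inl h'
          · exact Or.inr ⟨h, h'⟩
        · rintro (h | h)
          · exact hJL.1 h
          · exact h.1
      rw [this, Finset.card_union_of_disjoint]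
      rw [Finset.disjoint_left]
      intro v hv hv'
      rw [hU, mem_clsU] at hv
      rw [hS, mem_clsU, Finset.mem_sdiff] at hv'
      exact hv'.2 hv
    have hn := card_le_lg c (L := L) (J := lg c L) (Finset.Subset.refl _)
    have hgoodc : q * (t - 1) ≤ good.card := by
      apply mul_cancel_le ha
      have h1 : a * Fintype.card V ≤ a * ((clsU c (lg c L)).card + q * L) := Nat.mul_le_mul_left _ hn
      rw [hSc, ← hgb] at h1
      have h2 : a * (U.card + (good.card + bad.card) + q * L) =
        a * U.card + a * good.card + a * bad.card + a * q * L := by ring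
      have h3 : a * q * (L + (t - 1)) = a * q * L + a * (q * (t - 1)) := by ring
      have h4 : 2 * b * x * r = b * x * r + b * x * r := by ring
      omega
    have hne : (lg c L \ J).Nonempty := by
      obtain ⟨i, hi, hiJ⟩ := Finset.exists_of_ssubset hJL
      exact ⟨i, Finset.mem_sdiff.2 ⟨hi, hiJ⟩⟩
    have hmap : ∀ v ∈ good, c v ∈ lg c L \ J := by
      intro v hv
      have := (Finset.mem_filter.1 hv).1
      rwa [hS, mem_clsU] at this
    have hcard : (lg c L \ J).card * (t - 1) ≤ good.card := by
      refine le_trans (Nat.mul_le_mul_right _ ?_) hgoodc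
      calc (lg c L \ J).card ≤ (univ : Finset (Fin q)).card := Finset.card_le_card (Finset.subset_univ _)
        _ = q := by simp
    obtain ⟨i, hi, hic⟩ := Finset.exists_le_card_fiber_of_mul_le_card_of_maps_to hmap hne hcard
    obtain ⟨W, hW, hWc⟩ := Finset.exists_subset_card_eq hic
    rw [Finset.mem_sdiff] at hi
    refine ⟨i, hi.1, hi.2, W, ?_, hWc, fun X hX hXc => ?_⟩
    · intro v hv
      rw [mem_cls]
      exact (Finset.mem_filter.1 (hW hv)).2
    · apply concl
      have h1 : ∑ v ∈ X, b * x * dg G v U ≤ ∑ v ∈ X, a * U.card := by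
        apply Finset.sum_le_sum
        intro v hv
        exact (Finset.mem_filter.1 (Finset.mem_filter.1 (hW (hX hv))).1).2
      rw [Finset.sum_const, smul_eq_mul, ← Finset.mul_sum] at h1
      have h2 : X.card * (a * U.card) ≤ x * (a * U.card) := Nat.mul_le_mul_right _ hXc
      apply mul_cancel_le (b := x) (by omega)
      calc x * (b * ∑ v ∈ X, dg G v U) = b * x * ∑ v ∈ X, dg G v U := by ring
        _ ≤ x * (a * U.card) := h1.trans h2

/-- all classes are attached -/
theorem flex_all {c : V → Fin q} (hc : ∀ u v, G.Adj u v → c u ≠ c v) {r k x L a b : ℕ}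
    (hr : ∀ v, G.degree v ≤ r) (ht : 2 ≤ t) (hx : 1 ≤ x) (ha : 0 < a) (hab : a < b)
    (hkx : t - 1 ≤ k * x)
    (H1 : b * ((k + 2) * (t - 1)) ≤ (b - a) * L)
    (H2 : 2 * b * x * r + a * q * (L + (t - 1)) ≤ a * Fintype.card V)
    (H3 : (k + 2) * (t - 1) * q + q * L + x * r ≤ Fintype.card V) (hq : 0 < q) :
    ∃ R : Finset V, FlexP G t univ R ∧ R.card ≤ q * ((k + 1) * (t - 1)) := by
  have ht0 : 0 < t := by omega
  -- the general statement
  have key : ∀ m : ℕ, m < q → ∃ J : Finset (Fin q), J.card = m + 1 ∧ (J ⊆ lg c L ∨ lg c L ⊆ J) ∧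
      ∃ R ⊆ clsU c J, FlexP G t (clsU c J) R ∧
        R.card + (k + 1) * (t - 1) ≤ J.card * ((k + 1) * (t - 1)) := by
    intro m
    induction m with
    | zero =>
      intro _
      have hne : (lg c L).Nonempty := by
        by_contra hcon
        rw [Finset.not_nonempty_iff_eq_empty] at hcon
        have h1 := card_le_lg c (L := L) (J := lg c L) (Finset.Subset.refl _)
        rw [hcon] at h1
        have h2 : (clsU c (∅ : Finset (Fin q))).card = 0 := by
          rw [Finset.card_eq_zero]
          ext v; simp [mem_clsU]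
        have h3 : 1 ≤ (k + 2) * (t - 1) * q := by
          have : 0 < (k + 2) * (t - 1) * q := by
            apply Nat.mul_pos (Nat.mul_pos (by omega) (by omega)) hq
          omega
        omega
      obtain ⟨i, hi⟩ := hne
      refine ⟨{i}, by simp, Or.inl (by simpa using hi), ∅, by simp, ?_, by simp⟩
      apply flexP_of_indep
      intro u hu v hv hadj
      rw [mem_clsU, Finset.mem_singleton] at hu hv
      exact hc u v hadj (hu.trans hv.symm)
    | succ m ih =>
      intro hm
      obtain ⟨J, hJc, hJL, R, hR, hP, hRc⟩ := ih (by omega)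
      have hJne : J.Nonempty := by rw [← Finset.card_pos]; omega
      by_cases hall : lg c L ⊆ J
      · -- attach any class
        obtain ⟨i, hi⟩ : ∃ i, i ∉ J := by
          by_contra hcon
          push Not at hcon
          have : J = univ := Finset.eq_univ_of_forall hcon
          rw [this] at hJc
          simp at hJc
          omega
        obtain ⟨W, hW, hWc⟩ := Finset.exists_subset_card_eq (s := cls c i)
          (n := min (t - 1) (cls c i).card) (min_le_right _ _)
        obtain ⟨R', h1, h2, h3⟩ := attach hc hJne hR hP hi (k := k) (x := x) ht0 hkx hRc hW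
          (by rw [hWc]; exact min_le_left _ _)
          (by
            rcases le_total (t - 1) (cls c i).card with h | h
            · left; rw [hWc]; exact min_eq_left h
            · right
              apply Finset.eq_of_subset_of_card_le hW
              rw [hWc, min_eq_right h])
          (by
            intro X _ hXc
            have h4 := card_free (G := G) X (clsU c J)
            have h5 := sum_dg_le' hr X (clsU c J)
            have h6 : X.card * r ≤ x * r := Nat.mul_le_mul_right _ hXc
            have h7 := card_le_lg c hall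
            have h8 : J.card ≤ q := by
              calc J.card ≤ (univ : Finset (Fin q)).card := Finset.card_le_card (Finset.subset_univ _)
                _ = q := by simp
            have h9 : J.card * ((k + 2) * (t - 1)) ≤ (k + 2) * (t - 1) * q := by
              rw [mul_comm ((k + 2) * (t - 1)) q]
              exact Nat.mul_le_mul_right _ h8
            omega)
        exact ⟨insert i J, by rw [Finset.card_insert_of_notMem hi, hJc],
          Or.inr (hall.trans (Finset.subset_insert _ _)), R', h1, h2, h3⟩
      · have hJL' : J ⊆ lg c L := hJL.resolve_right hall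
        have hss : J ⊂ lg c L := ⟨hJL', hall⟩
        obtain ⟨i, hi, hiJ, W, hW, hWc, hfree⟩ := next_large hr ht hx ha hab H1 H2 hJne hss (G := G)
        obtain ⟨R', h1, h2, h3⟩ := attach hc hJne hR hP hiJ (k := k) (x := x) ht0 hkx hRc hW
          hWc.le (Or.inl hWc) hfree
        refine ⟨insert i J, by rw [Finset.card_insert_of_notMem hiJ, hJc], Or.inl ?_, R', h1, h2, h3⟩
        exact Finset.insert_subset hi hJL'
  obtain ⟨J, hJc, -, R, -, hP, hRc⟩ := key (q - 1) (by omega)
  have hJ : J = univ := by
    rw [← Finset.card_eq_iff_eq_univ, hJc]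
    simp
    omega
  have hU : clsU c J = univ := by
    ext v; simp [mem_clsU, hJ]
  rw [hU] at hP
  refine ⟨R, hP, ?_⟩
  rw [hJc] at hRc
  have : q - 1 + 1 = q := by omega
  rw [this] at hRc
  omega

end Pool.Agent.CLW
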