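import Pool.Agent.Lib.MP_40c71d_co_h20.Two
import Pool.Agent.Lib.MP_40c71d_co_h20.BigNum

/-! # Equitable colourings of graphs of small chromatic number -/

set_option autoImplicit false

open Finset

namespace Pool.Agent.CLW

variable {V : Type*} [Fintype V] [DecidableEq V] {G : SimpleGraph V} {q : ℕ} [DecidableRel G.Adj]

/-- all cases -/
theorem main_dich {c : V → Fin q} (hc : ∀ u v, G.Adj u v → c u ≠ c v) {r : ℕ}
    (hr : ∀ v, G.degree v ≤ r) (hqr : 100 * q ≤ r) :
    EquitablyColorable G r ∨ ∃ A B : Finset V, A ∪ B = univ ∧ Disjoint A B ∧ A.card = r ∧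
      B.card = r ∧ Odd r ∧ ∀ a ∈ A, ∀ b ∈ B, G.Adj a b := by
  by_cases h1 : Fintype.card V ≤ r
  · exact Or.inl (tiny_case h1)
  push Not at h1
  have hq : 0 < q := by
    have : 0 < Fintype.card V := by omega
    obtain ⟨v⟩ := Fintype.card_pos_iff.1 this
    exact Fin.pos (c v)
  by_cases h2 : Fintype.card V < 2 * r
  · exact Or.inl (one_case hc hq hr (by omega) h1 h2)
  by_cases h3 : Fintype.card V = 2 * r
  · exact zero_case hc hr h3 (by omega)
  left
  by_cases h4 : 29 * r ≤ 10 * Fintype.card V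
  · exact big_case hc hr hq hqr h4
  obtain ⟨p, hp⟩ : ∃ p, Fintype.card V = 2 * r + p := ⟨Fintype.card V - 2 * r, by omega⟩
  by_cases h5 : p < q
  · exact two_case hc hr hq hp (by omega) (by omega) (by omega) (by omega)
  · exact mid_case hc hr hp (by omega) (by omega) (by omega) (by omega)

end Pool.Agent.CLW
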