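import Pool.Agent.Lib.MP_40c71d_co_h20.Pairs

/-! # The case `|V| = 2 r + p`, `q ≤ p ≤ 0.9 r` -/

set_option autoImplicit false

open Finset

namespace Pool.Agent.CLW

variable {V : Type*} [Fintype V] [DecidableEq V] {G : SimpleGraph V} {q : ℕ}

theorem spl_of_classes {t : ℕ} {c : V → Fin q} (hc : ∀ u v, G.Adj u v → c u ≠ c v) (S : Finset V)
    (h : ∀ i, t ∣ (S.filter (fun v => c v = i)).card) : Spl G t S := by
  have key : ∀ J : Finset (Fin q), Spl G t (S.filter (fun v => c v ∈ J)) := by
    intro J
    induction J using Finset.induction_on with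
    | empty =>
      have : S.filter (fun v => c v ∈ (∅ : Finset (Fin q))) = ∅ := by
        ext v; simp
      rw [this]; exact Spl.nil
    | insert i J hi ih =>
      have : S.filter (fun v => c v ∈ insert i J) =
          S.filter (fun v => c v ∈ J) ∪ S.filter (fun v => c v = i) := by
        ext v
        simp only [Finset.mem_filter, Finset.mem_insert, Finset.mem_union]
        tauto
      rw [this]
      refine Spl.union ih (Spl.of_indep ?_ (h i)) ?_
      · intro u hu v hv hadj
        exact hc u v hadj ((Finset.mem_filter.1 hu).2.trans (Finset.mem_filter.1 hv).2.symm)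
      · rw [Finset.disjoint_left]
        intro v hv hv'
        rw [Finset.mem_filter] at hv hv'
        rw [hv'.2] at hv
        exact hi hv.2
  have := key univ
  have e : S.filter (fun v => c v ∈ (univ : Finset (Fin q))) = S := by
    ext v; simp
  rwa [e] at this

theorem sum_cls (c : V → Fin q) : ∑ i, (cls c i).card = Fintype.card V := by
  rw [← card_clsU c univ]
  rw [← Finset.card_univ]
  congr 1
  ext v; simp [mem_clsU]

/-- the numbers of vertices in triples -/
theorem numeric {m : Fin q → ℕ} (hm : ∀ i, m i ≠ 1) {p : ℕ} (hqp : q ≤ p)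
    (hpar : (∑ i, m i) % 2 = p % 2) (hbig : 3 * p + 5 * q < ∑ i, m i) :
    ∃ z : Fin q → ℕ, (∀ i, z i ≤ m i ∧ 3 ∣ z i ∧ 2 ∣ (m i - z i)) ∧ ∑ i, z i = 3 * p := by
  set o := ∑ i, (m i % 2) with ho
  have hoq : o ≤ q := by
    calc o ≤ ∑ _i : Fin q, 1 := Finset.sum_le_sum (fun i _ => by omega)
      _ = q := by simp
  have hop : o % 2 = p % 2 := by
    rw [← hpar, ho, ← Finset.sum_nat_mod]
  have key : ∀ N : ℕ, 3 * o + 6 * N ≤ 3 * p → ∃ z : Fin q → ℕ,
      (∀ i, z i ≤ m i ∧ 3 ∣ z i ∧ 2 ∣ (m i - z i)) ∧ ∑ i, z i = 3 * o + 6 * N := by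
    intro N
    induction N with
    | zero =>
      intro _
      refine ⟨fun i => 3 * (m i % 2), fun i => ?_, ?_⟩
      · have := hm i
        show 3 * (m i % 2) ≤ m i ∧ 3 ∣ 3 * (m i % 2) ∧ 2 ∣ m i - 3 * (m i % 2)
        refine ⟨by omega, Dvd.intro _ rfl, by omega⟩
      · rw [← Finset.mul_sum]; ring
    | succ N ih =>
      intro hN
      obtain ⟨z, hz, hsum⟩ := ih (by omega)
      obtain ⟨i, hi⟩ : ∃ i, z i + 6 ≤ m i := by
        by_contra hcon
        push Not at hcon
        have : ∑ i, m i ≤ ∑ i, (z i + 5) := Finset.sum_le_sum (fun i _ => by have := hcon i; omega)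
        rw [Finset.sum_add_distrib, hsum] at this
        simp only [Finset.sum_const, Finset.card_univ, Fintype.card_fin, smul_eq_mul] at this
        omega
      refine ⟨Function.update z i (z i + 6), fun j => ?_, ?_⟩
      · by_cases hj : j = i
        · subst hj
          rw [Function.update_self]
          obtain ⟨h1, h2, h3⟩ := hz j
          refine ⟨hi, ?_, ?_⟩ <;> omega
        · rw [Function.update_of_ne hj]
          exact hz j
      · rw [Finset.sum_update_of_mem (Finset.mem_univ i)]
        have h1 : ∑ j, z j = z i + ∑ j ∈ univ \ {i}, z j := by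
          rw [← Finset.add_sum_erase univ z (Finset.mem_univ i), Finset.sdiff_singleton_eq_erase]
        rw [hsum] at h1
        omega
  have h2 : (p - o) % 2 = 0 := by omega
  obtain ⟨z, hz, hsum⟩ := key ((p - o) / 2) (by omega)
  exact ⟨z, hz, by rw [hsum]; omega⟩

/-- from numbers to the colouring -/
theorem eqcol_of_numbers {c : V → Fin q} (hc : ∀ u v, G.Adj u v → c u ≠ c v) {r p : ℕ}
    (hn : Fintype.card V = 2 * r + p) (hpr : p ≤ r)
    {z : Fin q → ℕ} (hz : ∀ i, z i ≤ (cls c i).card ∧ 3 ∣ z i ∧ 2 ∣ ((cls c i).card - z i))
    (hsum : ∑ i, z i = 3 * p) : EquitablyColorable G r := by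
  choose Z hZ hZc using fun i => Finset.exists_subset_card_eq (hz i).1
  let S : Finset V := univ.filter (fun v => v ∈ Z (c v))
  have h1 : ∀ i, S.filter (fun v => c v = i) = Z i := by
    intro i
    ext v
    rw [Finset.mem_filter, Finset.mem_filter]
    constructor
    · rintro ⟨⟨_, h⟩, h'⟩
      rwa [h'] at h
    · intro h
      have := mem_cls.1 (hZ i h)
      exact ⟨⟨Finset.mem_univ _, by rwa [this]⟩, this⟩
  have h2 : ∀ i, (univ \ S).filter (fun v => c v = i) = cls c i \ Z i := by
    intro i
    ext v
    rw [Finset.mem_filter, Finset.mem_sdiff, Finset.mem_sdiff, mem_cls, Finset.mem_filter]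
    constructor
    · rintro ⟨⟨_, h⟩, h'⟩
      exact ⟨h', fun hv => h ⟨Finset.mem_univ _, by rwa [h']⟩⟩
    · rintro ⟨h, h'⟩
      exact ⟨⟨Finset.mem_univ _, fun hv => h' (by rw [← h]; exact hv.2)⟩, h⟩
  have hS3 : Spl G 3 S := spl_of_classes hc S (fun i => by rw [h1, hZc]; exact (hz i).2.1)
  have hS2 : Spl G 2 (univ \ S) := spl_of_classes hc _ (fun i => by
    rw [h2, Finset.card_sdiff_of_subset (hZ i), hZc]; exact (hz i).2.2)
  have hSc : S.card = p * 3 := by
    have : S.card = ∑ i, (S.filter (fun v => c v = i)).card :=
      Finset.card_eq_sum_card_fiberwise (fun v _ => Finset.mem_coe.2 (Finset.mem_univ (c v)))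
    rw [this]
    simp only [h1, hZc]
    rw [hsum]; ring
  have e : r = p + (r - p) := by omega
  rw [e]
  refine eqcol_of_spl (t := 3) (t' := 2) (by omega) (by omega) (by omega) (by omega) hS3 hS2
    Finset.disjoint_sdiff (Finset.union_sdiff_of_subset (Finset.subset_univ _)) hSc ?_
  rw [Finset.card_sdiff_of_subset (Finset.subset_univ _), Finset.card_univ, hn, hSc]
  omega

variable [DecidableRel G.Adj]

/-- a colouring without classes of size one -/
theorem no_single {r : ℕ} (hr : ∀ v, G.degree v ≤ r) (hn : 2 * q + r < Fintype.card V) :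
    ∀ (σ : ℕ) (c : V → Fin q), (∀ u v, G.Adj u v → c u ≠ c v) →
      (univ.filter (fun i => (cls c i).card = 1)).card = σ →
      ∃ c' : V → Fin q, (∀ u v, G.Adj u v → c' u ≠ c' v) ∧ ∀ i, (cls c' i).card ≠ 1 := by
  intro σ
  induction σ using Nat.strong_induction_on with
  | _ σ ih =>
    intro c hc hσ
    by_cases h0 : σ = 0
    · refine ⟨c, hc, fun i hi => ?_⟩
      rw [h0, Finset.card_eq_zero] at hσ
      have : i ∈ (univ.filter (fun i => (cls c i).card = 1)) :=
        Finset.mem_filter.2 ⟨Finset.mem_univ _, hi⟩
      rw [hσ] at this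
      exact absurd this (Finset.notMem_empty _)
    · obtain ⟨i, hi⟩ : (univ.filter (fun i => (cls c i).card = 1)).Nonempty := by
        rw [← Finset.card_pos]; omega
      have hi1 := (Finset.mem_filter.1 hi).2
      obtain ⟨v, hv⟩ := Finset.card_eq_one.1 hi1
      -- the vertices in classes of size at most two
      have hbad : (univ.filter (fun w => (cls c (c w)).card ≤ 2)).card ≤ 2 * q := by
        have h1 : (univ.filter (fun w => (cls c (c w)).card ≤ 2)) ⊆
            (univ.filter (fun i => (cls c i).card ≤ 2)).biUnion (fun i => cls c i) := by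
          intro w hw
          rw [Finset.mem_biUnion]
          exact ⟨c w, Finset.mem_filter.2 ⟨Finset.mem_univ _, (Finset.mem_filter.1 hw).2⟩,
            mem_cls.2 rfl⟩
        calc _ ≤ _ := Finset.card_le_card h1
          _ ≤ ∑ i ∈ univ.filter (fun i => (cls c i).card ≤ 2), (cls c i).card := Finset.card_biUnion_le
          _ ≤ ∑ _i ∈ univ.filter (fun i => (cls c i).card ≤ 2), 2 :=
            Finset.sum_le_sum (fun i hi => (Finset.mem_filter.1 hi).2)
          _ = (univ.filter (fun i => (cls c i).card ≤ 2)).card * 2 := by
            rw [Finset.sum_const, smul_eq_mul]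
          _ ≤ 2 * q := by
            have : (univ.filter (fun i => (cls c i).card ≤ 2)).card ≤ q := by
              calc _ ≤ (univ : Finset (Fin q)).card := Finset.card_le_card (Finset.subset_univ _)
                _ = q := by simp
            omega
      obtain ⟨w, hw⟩ : ∃ w, w ∉ (univ.filter (fun w => (cls c (c w)).card ≤ 2)) ∪ G.neighborFinset v := by
        by_contra hcon
        push Not at hcon
        have h1 : (univ : Finset V) ⊆ (univ.filter (fun w => (cls c (c w)).card ≤ 2)) ∪ G.neighborFinset v :=
          fun w _ => hcon w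
        have h2 := Finset.card_le_card h1
        have h3 := Finset.card_union_le (univ.filter (fun w => (cls c (c w)).card ≤ 2)) (G.neighborFinset v)
        rw [SimpleGraph.card_neighborFinset_eq_degree] at h3
        rw [Finset.card_univ] at h2
        have := hr v
        omega
      rw [Finset.mem_union, not_or, Finset.mem_filter, SimpleGraph.mem_neighborFinset] at hw
      have hw1 : 3 ≤ (cls c (c w)).card := by
        by_contra hcon
        exact hw.1 ⟨Finset.mem_univ _, by omega⟩
      have hw2 : ¬ G.Adj v w := hw.2
      have hcwi : c w ≠ i := by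
        intro h
        rw [h, hi1] at hw1
        omega
      let c' := Function.update c w i
      have hc' : ∀ a b, G.Adj a b → c' a ≠ c' b := by
        intro a b hab
        by_cases ha : a = w
        · by_cases hb : b = w
          · rw [ha, hb] at hab; exact absurd hab (G.loopless.irrefl _)
          · simp only [c', ha, Function.update_self, Function.update_of_ne hb]
            intro h
            have : b ∈ cls c i := mem_cls.2 h.symm
            rw [hv, Finset.mem_singleton] at this
            rw [ha, this] at hab
            exact hw2 hab.symm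
        · by_cases hb : b = w
          · simp only [c', hb, Function.update_self, Function.update_of_ne ha]
            intro h
            have : a ∈ cls c i := mem_cls.2 h
            rw [hv, Finset.mem_singleton] at this
            rw [hb, this] at hab
            exact hw2 hab
          · simp only [c', Function.update_of_ne ha, Function.update_of_ne hb]
            exact hc a b hab
      have hcl_i : cls c' i = insert w (cls c i) := by
        ext a
        rw [mem_cls, Finset.mem_insert, mem_cls]
        by_cases ha : a = w
        · simp [c', ha]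
        · simp [c', ha, Function.update_of_ne ha]
      have hcl_j : ∀ j, j ≠ i → cls c' j = (cls c j).erase w := by
        intro j hj
        ext a
        rw [mem_cls, Finset.mem_erase, mem_cls]
        by_cases ha : a = w
        · simp [c', ha, hj.symm]
        · simp [c', ha, Function.update_of_ne ha]
      have hlt : (univ.filter (fun i => (cls c' i).card = 1)).card < σ := by
        rw [← hσ]
        apply Finset.card_lt_card
        rw [Finset.ssubset_iff_of_subset]
        · refine ⟨i, hi, ?_⟩
          rw [Finset.mem_filter, not_and]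
          intro _
          rw [hcl_i, Finset.card_insert_of_notMem, hi1]
          · omega
          · rw [mem_cls]; exact hcwi
        · intro j hj
          rw [Finset.mem_filter] at hj ⊢
          refine ⟨Finset.mem_univ _, ?_⟩
          by_cases hji : j = i
          · rw [hji]; exact hi1
          · have h1 := hj.2
            rw [hcl_j j hji] at h1
            by_cases hwj : w ∈ cls c j
            · rw [Finset.card_erase_of_mem hwj] at h1
              rw [mem_cls] at hwj
              rw [hwj] at hw1
              omega
            · rwa [Finset.erase_eq_of_notMem hwj] at h1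
      exact ih _ hlt c' hc' rfl

/-- the case `|V| = 2 r + p`, `q ≤ p ≤ 0.9 r` -/
theorem mid_case {c : V → Fin q} (hc : ∀ u v, G.Adj u v → c u ≠ c v) {r p : ℕ}
    (hr : ∀ v, G.degree v ≤ r) (hn : Fintype.card V = 2 * r + p) (hqp : q ≤ p)
    (hp : 2 * p + 5 * q < 2 * r) (hqr : 2 * q ≤ r) (hr0 : 0 < r) : EquitablyColorable G r := by
  obtain ⟨c', hc', h1⟩ := no_single hr (by omega) _ c hc rfl
  have hs := sum_cls c'
  obtain ⟨z, hz, hsum⟩ := numeric (m := fun i => (cls c' i).card) h1 hqp (by rw [hs, hn]; omega)
    (by rw [hs, hn]; omega)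
  exact eqcol_of_numbers hc' hn (by omega) hz hsum

end Pool.Agent.CLW
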