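import Mathlib

/-! # Tutte's theorem for graphs covered by few cliques -/

set_option autoImplicit false

open Finset

namespace Pool.Agent.CLW

variable {W : Type*} [Fintype W] [DecidableEq W]

section

variable {K : SimpleGraph W} (u : Set W)

/-- the graph `K - u` -/
private abbrev del (K : SimpleGraph W) (u : Set W) := ((⊤ : K.Subgraph).deleteVerts u).coe

private theorem notMem_of_verts {v : W} (h : v ∈ ((⊤ : K.Subgraph).deleteVerts u).verts) :
    v ∉ u := by
  rw [SimpleGraph.Subgraph.deleteVerts_verts] at h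
  exact h.2

private theorem del_adj {v w : ((⊤ : K.Subgraph).deleteVerts u).verts} (h : K.Adj v.1 w.1) :
    (del K u).Adj v w := by
  have hv : v.1 ∉ u := notMem_of_verts u v.2
  have hw : w.1 ∉ u := notMem_of_verts u w.2
  show ((⊤ : K.Subgraph).deleteVerts u).Adj v.1 w.1
  rw [SimpleGraph.Subgraph.deleteVerts_adj]
  exact ⟨trivial, hv, trivial, hw, h⟩

private theorem mem_verts {v : W} (hv : v ∉ u) : v ∈ ((⊤ : K.Subgraph).deleteVerts u).verts := by
  rw [SimpleGraph.Subgraph.deleteVerts_verts]
  exact ⟨trivial, hv⟩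

/-- the vertices of a component -/
private def cv {u : Set W} (C : (del K u).ConnectedComponent) : Set W := Subtype.val '' C.supp

private theorem cv_disj {u : Set W} {C C' : (del K u).ConnectedComponent} (h : C ≠ C') :
    Disjoint (cv C) (cv C') := by
  rw [Set.disjoint_left]
  rintro w ⟨v, hv, rfl⟩ ⟨v', hv', h'⟩
  have : v' = v := Subtype.ext h'
  subst this
  rw [SimpleGraph.ConnectedComponent.mem_supp_iff] at hv hv'
  exact h (hv.symm.trans hv')

private theorem cv_disj_u {u : Set W} (C : (del K u).ConnectedComponent) : Disjoint (cv C) u := by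
  rw [Set.disjoint_left]
  rintro w ⟨v, hv, rfl⟩
  exact notMem_of_verts u v.2

private theorem comp_size [DecidableRel K.Adj] {u : Set W} {D : ℕ} (hD : ∀ v, D ≤ K.degree v)
    (C : (del K u).ConnectedComponent) : D + 1 ≤ (cv C).ncard + u.ncard := by
  obtain ⟨v, rfl⟩ := C.exists_rep
  have h1 : (↑(insert v.1 (K.neighborFinset v.1)) : Set W) ⊆
      cv ((del K u).connectedComponentMk v) ∪ u := by
    intro w hw
    rw [Finset.coe_insert, Set.mem_insert_iff] at hw
    rcases hw with rfl | hw
    · left
      exact ⟨v, rfl, rfl⟩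
    · by_cases hwu : w ∈ u
      · exact Or.inr hwu
      · left
        rw [Finset.mem_coe, SimpleGraph.mem_neighborFinset] at hw
        refine ⟨⟨w, mem_verts u hwu⟩, ?_, rfl⟩
        rw [SimpleGraph.ConnectedComponent.mem_supp_iff]
        rw [SimpleGraph.ConnectedComponent.eq]
        exact (del_adj u (v := v) (w := ⟨w, mem_verts u hwu⟩) hw).symm.reachable
  have h2 := Set.ncard_le_ncard h1 (Set.toFinite _)
  have h3 := Set.ncard_union_le (cv ((del K u).connectedComponentMk v)) u
  rw [Set.ncard_coe_finset, Finset.card_insert_of_notMem (by simp),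
    SimpleGraph.card_neighborFinset_eq_degree] at h2
  have h4 := hD v.1
  show D + 1 ≤ (cv ((del K u).connectedComponentMk v)).ncard + u.ncard
  omega

private theorem comps_le {q : ℕ} {u : Set W} (c : W → Fin q)
    (hc : ∀ v w, v ≠ w → c v = c w → K.Adj v w) (S : Set (del K u).ConnectedComponent) :
    S.ncard ≤ q := by
  classical
  let f : (del K u).ConnectedComponent → Fin q := fun C => c (C.exists_rep.choose).1
  have hf : Function.Injective f := by
    intro C C' h
    have h1 := C.exists_rep.choose_spec
    have h2 := C'.exists_rep.choose_spec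
    set v := C.exists_rep.choose with hv
    set v' := C'.exists_rep.choose with hv'
    by_cases hvv : v = v'
    · rw [← h1, ← h2, hvv]
    · rw [← h1, ← h2]
      have hne : v.1 ≠ v'.1 := fun h => hvv (Subtype.ext h)
      have := del_adj u (hc v.1 v'.1 hne h)
      exact SimpleGraph.ConnectedComponent.eq.2 this.reachable
  calc S.ncard ≤ Nat.card (del K u).ConnectedComponent := Set.ncard_le_card S
    _ ≤ Nat.card (Fin q) := Nat.card_le_card_of_injective f hf
    _ = q := by simp

end

/-- Tutte's theorem for a graph whose vertices are covered by `q` cliques and whose minimum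
degree is large. -/
theorem tutte_two {K : SimpleGraph W} [DecidableRel K.Adj] {N D q : ℕ} (hN : Fintype.card W = 2 * N)
    (c : W → Fin q) (hc : ∀ v w, v ≠ w → c v = c w → K.Adj v w) (hD : ∀ v, D ≤ K.degree v)
    (h : 2 * N + 2 * q < 3 * D + 3) :
    (∃ M : K.Subgraph, M.IsPerfectMatching) ∨
      ∃ A : Finset W, Odd A.card ∧ Odd Aᶜ.card ∧ ∀ v ∈ A, ∀ w ∉ A, ¬ K.Adj v w := by
  classical
  by_cases hM : ∃ M : K.Subgraph, M.IsPerfectMatching
  · exact Or.inl hM
  right
  rw [SimpleGraph.tutte] at hM
  push Not at hM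
  obtain ⟨u, hu⟩ := hM
  unfold SimpleGraph.IsTutteViolator at hu
  have hodd := SimpleGraph.odd_ncard_oddComponents (G := del K u)
  have hcardW : Nat.card ((⊤ : K.Subgraph).deleteVerts u).verts + u.ncard = 2 * N := by
    rw [SimpleGraph.Subgraph.deleteVerts_verts, SimpleGraph.Subgraph.verts_top,
      Nat.card_coe_set_eq, ← hN, ← Nat.card_eq_fintype_card, ← Set.ncard_univ]
    exact Set.ncard_sdiff_add_ncard_of_subset (Set.subset_univ u)
  have hle := comps_le c hc (del K u).oddComponents
  have hu0 : u.ncard = 0 := by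
    by_contra hcon
    have h3 : 2 < (del K u).oddComponents.ncard := by
      by_cases h1 : u.ncard = 1
      · have h4 : Odd (del K u).oddComponents.ncard := by
          rw [hodd]
          have : Nat.card ((⊤ : K.Subgraph).deleteVerts u).verts = 2 * N - 1 := by omega
          rw [this]
          exact Nat.odd_iff.2 (by omega)
        rw [Nat.odd_iff] at h4
        have h5 : 1 < (del K u).oddComponents.ncard := by rw [← h1]; exact hu
        omega
      · have : 2 ≤ u.ncard := by omega
        exact lt_of_le_of_lt this hu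
    obtain ⟨C1, C2, C3, -, -, -, h12, h13, h23⟩ := (Set.two_lt_ncard_iff (Set.toFinite _)).1 h3
    have s1 := comp_size hD C1
    have s2 := comp_size hD C2
    have s3 := comp_size hD C3
    have d12 := cv_disj h12
    have d13 := cv_disj h13
    have d23 := cv_disj h23
    have e1 : (cv C1 ∪ cv C2 ∪ cv C3 ∪ u).ncard = (cv C1).ncard + (cv C2).ncard + (cv C3).ncard + u.ncard := by
      rw [Set.ncard_union_eq _ (Set.toFinite _) (Set.toFinite _),
        Set.ncard_union_eq _ (Set.toFinite _) (Set.toFinite _),
        Set.ncard_union_eq d12 (Set.toFinite _) (Set.toFinite _)]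
      · rw [Set.disjoint_union_left]; exact ⟨d13, d23⟩
      · rw [Set.disjoint_union_left, Set.disjoint_union_left]
        exact ⟨⟨cv_disj_u C1, cv_disj_u C2⟩, cv_disj_u C3⟩
    have e2 : (cv C1 ∪ cv C2 ∪ cv C3 ∪ u).ncard ≤ 2 * N := by
      rw [← hN, ← Nat.card_eq_fintype_card]
      exact Set.ncard_le_card _
    have e3 : u.ncard < q := lt_of_lt_of_le hu hle
    omega
  have hpos : 0 < (del K u).oddComponents.ncard := lt_of_le_of_lt (Nat.zero_le _) hu
  obtain ⟨C, hC⟩ := (Set.ncard_pos (Set.toFinite _)).1 hpos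
  have hCodd : Odd (cv C).ncard := by
    unfold cv
    rw [Set.ncard_image_of_injective _ Subtype.val_injective]
    exact hC
  have hue : u = ∅ := (Set.ncard_eq_zero (Set.toFinite _)).1 hu0
  refine ⟨(cv C).toFinset, ?_, ?_, ?_⟩
  · rw [← Set.ncard_eq_toFinset_card']; exact hCodd
  · rw [Finset.card_compl, ← Set.ncard_eq_toFinset_card', hN]
    have h1 : (cv C).ncard ≤ 2 * N := by
      rw [← hN, ← Nat.card_eq_fintype_card]; exact Set.ncard_le_card _
    rw [Nat.odd_iff] at hCodd ⊢
    omega
  · intro v hv w hw hadj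
    rw [Set.mem_toFinset] at hv hw
    obtain ⟨v', hv', rfl⟩ := hv
    apply hw
    have hwu : w ∉ u := by rw [hue]; exact Set.notMem_empty w
    refine ⟨⟨w, mem_verts u hwu⟩, ?_, rfl⟩
    rw [SimpleGraph.ConnectedComponent.mem_supp_iff] at hv' ⊢
    rw [← hv', SimpleGraph.ConnectedComponent.eq]
    exact (del_adj u (v := v') (w := ⟨w, mem_verts u hwu⟩) hadj).symm.reachable

end Pool.Agent.CLW
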