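import Pool.Agent.Lib.MP_40c71d_co_h20.Big
import Pool.Agent.Lib.MP_40c71d_co_h20.Tutte

/-! # Pairings in the complement and the case `|V| < 2 r` -/

set_option autoImplicit false

open Finset

namespace Pool.Agent.CLW

theorem degree_eq_ncard {W : Type*} (G : SimpleGraph W) (v : W) [Fintype (G.neighborSet v)] :
    G.degree v = (G.neighborSet v).ncard := by
  rw [← SimpleGraph.card_neighborSet_eq_degree, ← Nat.card_eq_fintype_card, Nat.card_coe_set_eq]

/-- pairing or obstruction -/
theorem partner {W : Type*} [Finite W] {G : SimpleGraph W}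
    {N r q : ℕ} (hN : Nat.card W = 2 * N) {c : W → Fin q}
    (hc : ∀ u v, G.Adj u v → c u ≠ c v) (hr : ∀ v, (G.neighborSet v).ncard ≤ r)
    (h : 3 * r + 2 * q < 4 * N) :
    (∃ p : W → W, (∀ w, p (p w) = w) ∧ (∀ w, p w ≠ w) ∧ ∀ w, ¬ G.Adj w (p w)) ∨
      ∃ A B : Finset W, (∀ w, w ∈ A ∨ w ∈ B) ∧ Disjoint A B ∧ Odd A.card ∧ Odd B.card ∧
        ∀ v ∈ A, ∀ w ∈ B, G.Adj v w := by
  classical
  have := Fintype.ofFinite W
  rw [Nat.card_eq_fintype_card] at hN
  have hdeg : ∀ v, 2 * N - 1 - r ≤ Gᶜ.degree v := by
    intro v
    rw [SimpleGraph.degree_compl, hN]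
    have := hr v
    rw [degree_eq_ncard]
    omega
  rcases tutte_two (K := Gᶜ) hN c
    (fun v w hvw hcv => (SimpleGraph.compl_adj G v w).2 ⟨hvw, fun hadj => hc v w hadj hcv⟩) hdeg
    (by omega) with ⟨M, hM⟩ | ⟨A, h1, h2, h3⟩
  · left
    have hex : ∀ w, ∃! w', M.Adj w w' := fun w => hM.1 (hM.2 w)
    choose p hp hu using hex
    refine ⟨p, fun w => ?_, fun w => ?_, fun w => ?_⟩
    · exact (hu (p w) w (hp w).symm).symm
    · exact fun h => (M.adj_sub (hp w)).ne h.symm
    · have := M.adj_sub (hp w)
      rw [SimpleGraph.compl_adj] at this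
      exact this.2
  · right
    refine ⟨A, Aᶜ, fun w => ?_, disjoint_compl_right, h1, h2, fun v hv w hw => ?_⟩
    · rw [Finset.mem_compl]; exact em _
    · rw [Finset.mem_compl] at hw
      by_contra hcon
      exact h3 v hv w hw ((SimpleGraph.compl_adj G v w).2 ⟨fun h => hw (h ▸ hv), hcon⟩)

variable {V : Type*} [DecidableEq V] {G : SimpleGraph V}

/-- a fixed point free involution gives a splitting in pairs -/
theorem spl_of_invol (m : V → V) (S : Finset V) (h1 : ∀ v ∈ S, m v ∈ S) (h2 : ∀ v ∈ S, m (m v) = v)
    (h3 : ∀ v ∈ S, m v ≠ v) (h4 : ∀ v ∈ S, ¬ G.Adj v (m v)) : Spl G 2 S := by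
  induction hn : S.card using Nat.strong_induction_on generalizing S with
  | _ n ih =>
    rcases S.eq_empty_or_nonempty with rfl | ⟨v, hv⟩
    · exact Spl.nil
    · have hv' := h1 v hv
      have hne := h3 v hv
      have hA : ({v, m v} : Finset V) ⊆ S := by
        intro w hw
        rw [Finset.mem_insert, Finset.mem_singleton] at hw
        rcases hw with rfl | rfl
        · exact hv
        · exact hv'
      have hAc : ({v, m v} : Finset V).card = 2 := Finset.card_pair hne.symm
      have hS : S = (S \ {v, m v}) ∪ {v, m v} := (Finset.sdiff_union_of_subset hA).symm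
      have hcl : ∀ w ∈ S \ {v, m v}, m w ∈ S \ {v, m v} := by
        intro w hw
        rw [Finset.mem_sdiff, Finset.mem_insert, Finset.mem_singleton] at hw ⊢
        refine ⟨h1 w hw.1, ?_⟩
        rintro (h | h)
        · apply hw.2; right
          rw [← h2 w hw.1, h]
        · apply hw.2; left
          rw [← h2 w hw.1, h, h2 v hv]
      have hsub : Spl G 2 (S \ {v, m v}) := by
        apply ih (S \ {v, m v}).card _ _ hcl _ _ _ rfl
        · rw [← hn, Finset.card_sdiff_of_subset hA, hAc]
          have := Finset.card_le_card hA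
          omega
        · exact fun w hw => h2 w (Finset.sdiff_subset hw)
        · exact fun w hw => h3 w (Finset.sdiff_subset hw)
        · exact fun w hw => h4 w (Finset.sdiff_subset hw)
      rw [hS]
      refine Spl.cons hsub Finset.sdiff_disjoint hAc ?_
      intro a ha b hb hadj
      rw [Finset.mem_insert, Finset.mem_singleton] at ha hb
      rcases ha with rfl | rfl <;> rcases hb with rfl | rfl
      · exact G.loopless.irrefl _ hadj
      · exact h4 _ hv hadj
      · exact h4 _ hv hadj.symm
      · exact G.loopless.irrefl _ hadj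

/-- splitting in single vertices -/
theorem spl_one (S : Finset V) : Spl G 1 S := by
  induction S using Finset.induction_on with
  | empty => exact Spl.nil
  | insert a S ha ih =>
    have : insert a S = S ∪ {a} := by
      rw [Finset.insert_eq, Finset.union_comm]
    rw [this]
    refine Spl.cons ih (by simpa using ha) (by simp) ?_
    intro u hu v hv hadj
    rw [Finset.mem_singleton] at hu hv
    rw [hu, hv] at hadj
    exact G.loopless.irrefl _ hadj

variable [Fintype V] [DecidableRel G.Adj]

/-- splitting of the complement of a set in pairs, or an obstruction -/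
theorem pairs_or {r q N : ℕ} {c : V → Fin q} (hc : ∀ u v, G.Adj u v → c u ≠ c v)
    (hr : ∀ v, G.degree v ≤ r) (T : Finset V) (hT : (univ \ T).card = 2 * N)
    (h : 3 * r + 2 * q < 4 * N) :
    Spl G 2 (univ \ T) ∨ ∃ A B : Finset V, A ∪ B = univ \ T ∧ Disjoint A B ∧ Odd A.card ∧
      Odd B.card ∧ ∀ a ∈ A, ∀ b ∈ B, G.Adj a b := by
  classical
  let W := {v : V // v ∈ univ \ T}
  let G' : SimpleGraph W := G.comap Subtype.val
  have hW : Nat.card W = 2 * N := by
    rw [← hT]; exact Nat.subtype_card (univ \ T) (fun _ => Iff.rfl)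
  have hr' : ∀ w : W, (G'.neighborSet w).ncard ≤ r := by
    intro w
    refine le_trans ?_ (hr w.1)
    rw [degree_eq_ncard]
    apply Set.ncard_le_ncard_of_injOn Subtype.val
    · intro a ha
      exact ha
    · exact Subtype.val_injective.injOn
  rcases partner (G := G') hW (c := fun w => c w.1) (fun u v h => hc u.1 v.1 h) hr' h with
    ⟨p, p1, p2, p3⟩ | ⟨A, B, a0, a0', a1, a2, a3⟩
  · left
    apply spl_of_invol (fun v => if h : v ∈ univ \ T then (p ⟨v, h⟩).1 else v)
    · intro v hv
      rw [dif_pos hv]
      exact (p ⟨v, hv⟩).2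
    · intro v hv
      rw [dif_pos hv, dif_pos (p ⟨v, hv⟩).2]
      have := congrArg Subtype.val (p1 ⟨v, hv⟩)
      exact this
    · intro v hv
      rw [dif_pos hv]
      intro h
      exact p2 ⟨v, hv⟩ (Subtype.ext h)
    · intro v hv
      rw [dif_pos hv]
      exact p3 ⟨v, hv⟩
  · right
    refine ⟨A.map (Function.Embedding.subtype _), B.map (Function.Embedding.subtype _), ?_, ?_, ?_, ?_, ?_⟩
    · ext v
      rw [Finset.mem_union, Finset.mem_map, Finset.mem_map]
      constructor
      · rintro (⟨w, _, rfl⟩ | ⟨w, _, rfl⟩) <;> exact w.2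
      · intro hv
        rcases a0 ⟨v, hv⟩ with h | h
        · exact Or.inl ⟨⟨v, hv⟩, h, rfl⟩
        · exact Or.inr ⟨⟨v, hv⟩, h, rfl⟩
    · rw [Finset.disjoint_map]
      exact a0'
    · rw [Finset.card_map]; exact a1
    · rw [Finset.card_map]; exact a2
    · intro a ha b hb
      rw [Finset.mem_map] at ha hb
      obtain ⟨w, hw, rfl⟩ := ha
      obtain ⟨w', hw', rfl⟩ := hb
      exact a3 w hw w' hw'

/-- the case `|V| ≤ r` -/
theorem tiny_case {r : ℕ} (h : Fintype.card V ≤ r) : EquitablyColorable G r := by
  have h1 := eqcol_of_spl (G := G) (t := 1) (t' := 0 + 1) (N := Fintype.card V) (N' := 0) (S := univ)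
    (S' := ∅) (by omega) (by omega) (by omega) (by omega) (spl_one _) Spl.nil
    (Finset.disjoint_empty_right _) (by simp) (by simp) (by simp)
  obtain ⟨C, hC⟩ := h1
  have hinj : Function.Injective (Fintype.equivFin V) := (Fintype.equivFin V).injective
  let F : V → Fin r := fun v => Fin.castLE h (Fintype.equivFin V v)
  have hF : Function.Injective F := fun u v huv => hinj (Fin.castLE_injective h huv)
  refine ⟨SimpleGraph.Coloring.mk F (fun {u v} hadj heq => hadj.ne (hF heq)), fun i j => ?_⟩
  have : (univ.filter (fun v => F v = i)).card ≤ 1 := by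
    rw [Finset.card_le_one]
    intro a ha b hb
    rw [Finset.mem_filter] at ha hb
    exact hF (ha.2.trans hb.2.symm)
  exact le_trans this (Nat.le_add_left _ _)

/-- the case `r < |V| < 2 r` -/
theorem one_case {r q : ℕ} {c : V → Fin q} (hc : ∀ u v, G.Adj u v → c u ≠ c v) (hq : 0 < q)
    (hr : ∀ v, G.degree v ≤ r) (hqr : 2 * q < r) (h1 : r < Fintype.card V)
    (h2 : Fintype.card V < 2 * r) : EquitablyColorable G r := by
  classical
  set n := Fintype.card V with hn
  set d := 2 * r - n with hd
  let W := V ⊕ Fin d
  let G' : SimpleGraph W := G.sum (⊥ : SimpleGraph (Fin d))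
  have hW : Nat.card W = 2 * r := by
    rw [Nat.card_eq_fintype_card, Fintype.card_sum, Fintype.card_fin, ← hn]; omega
  have hr' : ∀ w : W, (G'.neighborSet w).ncard ≤ r := by
    intro w
    rcases w with v | i
    · refine le_trans ?_ (hr v)
      rw [degree_eq_ncard]
      have e0 : (G.neighborSet v).ncard = (Sum.inl '' (G.neighborSet v) : Set W).ncard :=
        (Set.ncard_image_of_injective _ Sum.inl_injective).symm
      rw [e0]
      apply Set.ncard_le_ncard
      · intro w hw
        rcases w with u | j
        · refine ⟨u, ?_, rfl⟩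
          simpa [G'] using hw
        · simp [G'] at hw
      · exact Set.toFinite _
    · have : G'.neighborSet (Sum.inr i) = ∅ := by
        ext w
        rcases w with u | j <;> simp [G']
      rw [this]
      simp
  let c' : W → Fin q := Sum.elim c (fun _ => ⟨0, hq⟩)
  have hc' : ∀ u v, G'.Adj u v → c' u ≠ c' v := by
    intro u v hadj
    rcases u with u | i <;> rcases v with v | j
    · simp only [c', Sum.elim_inl]
      exact hc u v (by simpa [G'] using hadj)
    · simp [G'] at hadj
    · simp [G'] at hadj
    · simp [G'] at hadj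
  rcases partner (G := G') (r := r) (N := r) hW hc' hr' (by omega) with
    ⟨p, p1, p2, p3⟩ | ⟨A, B, a0, _, a1, a2, a3⟩
  · -- the vertices matched to vertices
    let S : Finset V := univ.filter (fun v => ∃ u, p (Sum.inl v) = Sum.inl u)
    let m : V → V := fun v => Sum.elim id (fun _ => v) (p (Sum.inl v))
    have hm : ∀ v ∈ S, p (Sum.inl v) = Sum.inl (m v) := by
      intro v hv
      obtain ⟨u, hu⟩ := (Finset.mem_filter.1 hv).2
      simp only [m, hu, Sum.elim_inl, id]
    have hmS : ∀ v ∈ S, m v ∈ S := by
      intro v hv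
      refine Finset.mem_filter.2 ⟨Finset.mem_univ _, v, ?_⟩
      rw [← hm v hv, p1]
    have hS : Spl G 2 S := by
      apply spl_of_invol m S hmS
      · intro v hv
        have e1 := hm (m v) (hmS v hv)
        rw [← hm v hv, p1] at e1
        exact (Sum.inl_injective e1).symm
      · intro v hv h
        apply p2 (Sum.inl v)
        rw [hm v hv, h]
      · intro v hv hadj
        apply p3 (Sum.inl v)
        rw [hm v hv]
        simpa [G'] using hadj
    have hSc : n ≤ S.card + d := by
      have h3 : (univ \ S).card ≤ d := by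
        have h4 : ∀ v ∈ univ \ S, ∃ j : Fin d, p (Sum.inl v) = Sum.inr j := by
          intro v hv
          rcases hpv : p (Sum.inl v) with u | j
          · exact absurd (Finset.mem_filter.2 ⟨Finset.mem_univ v, u, hpv⟩) (Finset.mem_sdiff.1 hv).2
          · exact ⟨j, rfl⟩
        have h5 : ((univ \ S).image (fun v => p (Sum.inl v))).card ≤ (univ.image (Sum.inr : Fin d → W)).card := by
          apply Finset.card_le_card
          intro w hw
          rw [Finset.mem_image] at hw
          obtain ⟨v, hv, rfl⟩ := hw
          obtain ⟨j, hj⟩ := h4 v hv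
          rw [Finset.mem_image]
          exact ⟨j, Finset.mem_univ _, hj.symm⟩
        rw [Finset.card_image_of_injOn, Finset.card_image_of_injective _ Sum.inr_injective] at h5
        · simpa using h5
        · intro v _ v' _ hvv
          dsimp only at hvv
          have := congrArg p hvv
          rw [p1, p1] at this
          exact Sum.inl_injective this
      have h6 := Finset.le_card_sdiff S (univ : Finset V)
      rw [Finset.card_univ, ← hn] at h6
      omega
    obtain ⟨S', hS'S, hS', hS'c⟩ := hS.sub (m := n - r) (by omega)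
    have e : r = (n - r) + (2 * r - n) := by omega
    rw [e]
    refine eqcol_of_spl (t := 2) (t' := 1) (by omega) (by omega) (by omega) (by omega) hS' (spl_one (univ \ S'))
      Finset.disjoint_sdiff (Finset.union_sdiff_of_subset (Finset.subset_univ _)) hS'c ?_
    rw [Finset.card_sdiff_of_subset (Finset.subset_univ _), Finset.card_univ, ← hn, hS'c]
    omega
  · exfalso
    have hd1 : 0 < d := by omega
    let j : Fin d := ⟨0, hd1⟩
    have hne1 : A.Nonempty := by rw [← Finset.card_pos]; exact a1.pos
    have hne2 : B.Nonempty := by rw [← Finset.card_pos]; exact a2.pos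
    obtain ⟨x, hx⟩ := hne1
    obtain ⟨y, hy⟩ := hne2
    rcases a0 (Sum.inr j) with hj | hj
    · have := a3 _ hj y hy
      rcases y with u | i <;> simp [G'] at this
    · have := a3 x hx _ hj
      rcases x with u | i <;> simp [G'] at this

end Pool.Agent.CLW
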