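import Pool.Agent.Lib.MP_40c71d_co_h20.Attach

/-! # Attaching one colour class by pieces -/

set_option autoImplicit false

open Finset

namespace Pool.Agent.CLW

variable {V : Type*} [Fintype V] [DecidableEq V]

/-- a colour class -/
def cls {q : ℕ} (c : V → Fin q) (i : Fin q) : Finset V := univ.filter (fun v => c v = i)

/-- the union of the colour classes in `J` -/
def clsU {q : ℕ} (c : V → Fin q) (J : Finset (Fin q)) : Finset V := univ.filter (fun v => c v ∈ J)

/-- the vertices of `U` without neighbours in `X` -/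
def free (G : SimpleGraph V) [DecidableRel G.Adj] (X U : Finset V) : Finset V :=
  U.filter (fun u => ∀ v ∈ X, ¬ G.Adj v u)

variable {G : SimpleGraph V} [DecidableRel G.Adj] {t q : ℕ}

theorem mem_cls {c : V → Fin q} {i : Fin q} {v : V} : v ∈ cls c i ↔ c v = i := by
  simp [cls]

theorem mem_clsU {c : V → Fin q} {J : Finset (Fin q)} {v : V} : v ∈ clsU c J ↔ c v ∈ J := by
  simp [clsU]

theorem mem_free {X U : Finset V} {u : V} : u ∈ free G X U ↔ u ∈ U ∧ ∀ v ∈ X, ¬ G.Adj v u := by
  simp [free]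

theorem clsU_insert {c : V → Fin q} {J : Finset (Fin q)} {i : Fin q} :
    clsU c (insert i J) = clsU c J ∪ cls c i := by
  ext v
  simp only [mem_clsU, Finset.mem_insert, Finset.mem_union, mem_cls]
  tauto

theorem disjoint_cls {c : V → Fin q} {J : Finset (Fin q)} {i : Fin q} (hi : i ∉ J) :
    Disjoint (clsU c J) (cls c i) := by
  rw [Finset.disjoint_left]
  intro v hv hv'
  rw [mem_clsU] at hv
  rw [mem_cls] at hv'
  rw [hv'] at hv
  exact hi hv

theorem cls_indep {c : V → Fin q} (hc : ∀ u v, G.Adj u v → c u ≠ c v) (i : Fin q) :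
    ∀ u ∈ cls c i, ∀ v ∈ cls c i, ¬ G.Adj u v := by
  intro u hu v hv hadj
  rw [mem_cls] at hu hv
  exact hc u v hadj (hu.trans hv.symm)

theorem find_Y {c : V → Fin q} (hc : ∀ u v, G.Adj u v → c u ≠ c v) {J : Finset (Fin q)}
    (hJ : J.Nonempty) {X R : Finset V}
    (h : R.card + J.card * (t - 1) ≤ (free G X (clsU c J)).card) :
    ∃ Y ⊆ clsU c J, Y.card = t - 1 ∧ (∀ u ∈ Y, ∀ v ∈ Y, ¬ G.Adj u v) ∧ Disjoint Y R ∧
      ∀ u ∈ X, ∀ v ∈ Y, ¬ G.Adj u v := by
  have h1 : J.card * (t - 1) ≤ ((free G X (clsU c J)) \ R).card := by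
    have := Finset.le_card_sdiff R (free G X (clsU c J))
    omega
  have h2 : ∀ v ∈ (free G X (clsU c J)) \ R, c v ∈ J := by
    intro v hv
    rw [Finset.mem_sdiff, mem_free, mem_clsU] at hv
    exact hv.1.1
  obtain ⟨j, hj, hcard⟩ := Finset.exists_le_card_fiber_of_mul_le_card_of_maps_to h2 hJ h1
  obtain ⟨Y, hY, hYc⟩ := Finset.exists_subset_card_eq hcard
  have h3 : ∀ v ∈ Y, (v ∈ free G X (clsU c J) ∧ v ∉ R) ∧ c v = j := by
    intro v hv
    have := hY hv
    rw [Finset.mem_filter, Finset.mem_sdiff] at this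
    exact this
  refine ⟨Y, ?_, hYc, ?_, ?_, ?_⟩
  · intro v hv
    exact (mem_free.1 (h3 v hv).1.1).1
  · intro u hu v hv hadj
    exact hc u v hadj ((h3 u hu).2.trans (h3 v hv).2.symm)
  · rw [Finset.disjoint_left]
    intro v hv
    exact (h3 v hv).1.2
  · intro u hu v hv
    exact (mem_free.1 (h3 v hv).1.1).2 u hu

theorem pieces {c : V → Fin q} (hc : ∀ u v, G.Adj u v → c u ≠ c v) {J : Finset (Fin q)}
    (hJ : J.Nonempty) {R : Finset V} (hR : R ⊆ clsU c J) (hP : FlexP G t (clsU c J) R)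
    {i : Fin q} (hi : i ∉ J) {k x : ℕ} (ht : 0 < t)
    (hRc : R.card + (k + 1) * (t - 1) ≤ J.card * ((k + 1) * (t - 1)))
    {W : Finset V} (hW : W ⊆ cls c i) (hWt : W.card ≤ t - 1)
    (hfree : ∀ X ⊆ W, X.card ≤ x → J.card * ((k + 2) * (t - 1)) ≤ (free G X (clsU c J)).card) :
    ∀ a ≤ k, ∀ W' ⊆ W, W'.card ≤ a * x → ∃ R' ⊆ clsU c J ∪ W',
      R'.card ≤ R.card + a * (t - 1) + W'.card ∧ FlexQ G t (clsU c J) R' (cls c i) W'.card := by
  intro a
  induction a with
  | zero =>
    intro _ W' hW' hc'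
    have : W' = ∅ := by
      rw [← Finset.card_eq_zero]; omega
    subst this
    refine ⟨R, by simpa using hR, by simp, ?_⟩
    simpa using flexQ_zero hP (cls_indep hc i) (disjoint_cls hi)
  | succ a ih =>
    intro hak W' hW' hc'
    obtain ⟨X, hX, hXc⟩ := Finset.exists_subset_card_eq (s := W') (n := min x W'.card) (min_le_right _ _)
    have h1 : (W' \ X).card ≤ a * x := by
      rw [Finset.card_sdiff_of_subset hX, hXc]
      rw [Nat.succ_mul] at hc'
      omega
    obtain ⟨R'', hR'', hR''c, hQ⟩ := ih (by omega) (W' \ X) (Finset.sdiff_subset.trans hW') h1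
    have hW't : W'.card ≤ t - 1 := (Finset.card_le_card hW').trans hWt
    have h2 : (W' \ X).card + X.card = W'.card := by
      rw [Finset.card_sdiff_of_subset hX]
      have := Finset.card_le_card hX
      omega
    have h3 : R''.card + J.card * (t - 1) ≤ (free G X (clsU c J)).card := by
      refine le_trans ?_ (hfree X (hX.trans hW') (by rw [hXc]; exact min_le_left _ _))
      have h4 : a * (t - 1) + (t - 1) ≤ k * (t - 1) := by
        rw [← Nat.succ_mul]; exact Nat.mul_le_mul_right _ hak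
      have h5 : J.card * ((k + 2) * (t - 1)) = J.card * ((k + 1) * (t - 1)) + J.card * (t - 1) := by ring
      have h6 : (k + 1) * (t - 1) = k * (t - 1) + (t - 1) := by ring
      rw [h5]
      omega
    obtain ⟨Y, hY, hYc, hYi, hYR, hXY⟩ := find_Y hc hJ h3
    have hXA : X ⊆ cls c i := hX.trans (hW'.trans hW)
    have hdis := disjoint_cls (c := c) hi
    have hXR : Disjoint X R'' := by
      rw [Finset.disjoint_left]
      intro v hv hv'
      rcases Finset.mem_union.1 (hR'' hv') with h' | h'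
      · exact Finset.disjoint_left.1 hdis h' (hXA hv)
      · exact (Finset.mem_sdiff.1 h').2 hv
    have hstep := flexQ_step hQ (cls_indep hc i) hdis hXA hY hYi hXR hYR hXY ht hYc.ge
    rw [h2] at hstep
    refine ⟨R'' ∪ X ∪ Y, ?_, ?_, hstep⟩
    · apply Finset.union_subset
      · apply Finset.union_subset
        · exact hR''.trans (Finset.union_subset_union (Finset.Subset.refl _) Finset.sdiff_subset)
        · exact hX.trans Finset.subset_union_right
      · exact hY.trans Finset.subset_union_left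
    · have h7 := Finset.card_union_le (R'' ∪ X) Y
      have h8 := Finset.card_union_le R'' X
      have h9 : (a + 1) * (t - 1) = a * (t - 1) + (t - 1) := by ring
      rw [h9]
      omega

/-- one further class is attached -/
theorem attach {c : V → Fin q} (hc : ∀ u v, G.Adj u v → c u ≠ c v) {J : Finset (Fin q)}
    (hJ : J.Nonempty) {R : Finset V} (hR : R ⊆ clsU c J) (hP : FlexP G t (clsU c J) R)
    {i : Fin q} (hi : i ∉ J) {k x : ℕ} (ht : 0 < t) (hkx : t - 1 ≤ k * x)
    (hRc : R.card + (k + 1) * (t - 1) ≤ J.card * ((k + 1) * (t - 1)))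
    {W : Finset V} (hW : W ⊆ cls c i) (hWt : W.card ≤ t - 1)
    (hWW : W.card = t - 1 ∨ W = cls c i)
    (hfree : ∀ X ⊆ W, X.card ≤ x → J.card * ((k + 2) * (t - 1)) ≤ (free G X (clsU c J)).card) :
    ∃ R' ⊆ clsU c (insert i J), FlexP G t (clsU c (insert i J)) R' ∧
      R'.card + (k + 1) * (t - 1) ≤ (insert i J).card * ((k + 1) * (t - 1)) := by
  obtain ⟨R', h1, h2, h3⟩ := pieces hc hJ hR hP hi ht hRc hW hWt hfree k le_rfl W
    (Finset.Subset.refl _) (hWt.trans hkx)
  refine ⟨R', ?_, ?_, ?_⟩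
  · rw [clsU_insert]
    exact h1.trans (Finset.union_subset_union (Finset.Subset.refl _) hW)
  · rw [clsU_insert]
    apply flexP_of_flexQ h3 ht
    rcases hWW with h | h
    · exact Or.inl h.ge
    · rw [← h]; exact Or.inr le_rfl
  · have h7 : (J.card + 1) * ((k + 1) * (t - 1)) = J.card * ((k + 1) * (t - 1)) + (k + 1) * (t - 1) := by
      ring
    rw [Finset.card_insert_of_notMem hi, h7]
    have h6 : (k + 1) * (t - 1) = k * (t - 1) + (t - 1) := by ring
    omega

end Pool.Agent.CLW
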