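import Mathlib

/-! # Splitting a vertex set into independent sets of equal size -/

set_option autoImplicit false

open Finset

namespace Pool.Agent.CLW

variable {V : Type*} [DecidableEq V]

/-- `S` is a disjoint union of independent sets of size `t`. -/
inductive Spl (G : SimpleGraph V) (t : ℕ) : Finset V → Prop
  | nil : Spl G t ∅
  | cons {S A : Finset V} : Spl G t S → Disjoint S A → A.card = t →
      (∀ u ∈ A, ∀ v ∈ A, ¬ G.Adj u v) → Spl G t (S ∪ A)

variable {G : SimpleGraph V} {t : ℕ}

theorem Spl.union {S S' : Finset V} (h : Spl G t S) (h' : Spl G t S') (hd : Disjoint S S') :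
    Spl G t (S ∪ S') := by
  induction h' with
  | nil => simpa using h
  | @cons S'' A hS'' hdA hc hi ih =>
    rw [← Finset.union_assoc]
    rw [Finset.disjoint_union_right] at hd
    refine Spl.cons (ih hd.1) ?_ hc hi
    rw [Finset.disjoint_union_left]
    exact ⟨hd.2, hdA⟩

theorem Spl.single {A : Finset V} (hc : A.card = t) (hi : ∀ u ∈ A, ∀ v ∈ A, ¬ G.Adj u v) :
    Spl G t A := by
  have := Spl.cons (G := G) (t := t) (S := ∅) Spl.nil (Finset.disjoint_empty_left A) hc hi
  simpa using this

theorem Spl.of_indep {A : Finset V} (hi : ∀ u ∈ A, ∀ v ∈ A, ¬ G.Adj u v)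
    (hd : t ∣ A.card) : Spl G t A := by
  obtain ⟨k, hk⟩ := hd
  induction k generalizing A with
  | zero =>
    have : A = ∅ := by
      rw [← Finset.card_eq_zero, hk]; simp
    rw [this]
    exact Spl.nil
  | succ k ih =>
    obtain ⟨B, hB, hBc⟩ := Finset.exists_subset_card_eq (s := A) (n := t) (by rw [hk]; nlinarith)
    have h1 : (A \ B).card = t * k := by
      rw [Finset.card_sdiff_of_subset hB, hk, hBc, Nat.mul_succ]; omega
    have h2 := ih (A := A \ B) (fun u hu v hv => hi u (Finset.sdiff_subset hu) v (Finset.sdiff_subset hv)) h1
    have h3 : A = (A \ B) ∪ B := (Finset.sdiff_union_of_subset hB).symm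
    rw [h3]
    exact Spl.cons h2 Finset.sdiff_disjoint hBc (fun u hu v hv => hi u (hB hu) v (hB hv))

/-- the colouring given by a splitting -/
theorem Spl.coloring {S : Finset V} (h : Spl G t S) :
    ∃ N : ℕ, S.card = N * t ∧ ∃ f : V → ℕ, (∀ v ∈ S, f v < N) ∧
      (∀ u ∈ S, ∀ v ∈ S, G.Adj u v → f u ≠ f v) ∧ ∀ i < N, (S.filter (fun v => f v = i)).card = t := by
  induction h with
  | nil =>
    refine ⟨0, by simp, fun _ => 0, by simp, by simp, by simp⟩
  | @cons S A hS hd hc hi ih =>
    obtain ⟨N, hN, f, h1, h2, h3⟩ := ih
    have hdis : ∀ v ∈ A, v ∉ S := fun v hv hv' => Finset.disjoint_left.1 hd hv' hv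
    refine ⟨N + 1, ?_, fun v => if v ∈ A then N else f v, ?_, ?_, ?_⟩
    · rw [Finset.card_union_of_disjoint hd, hN, hc]; ring
    · intro v hv
      dsimp only
      split_ifs with h
      · omega
      · rcases Finset.mem_union.1 hv with h' | h'
        · have := h1 v h'; omega
        · exact absurd h' h
    · intro u hu v hv hadj
      dsimp only
      split_ifs with ha hb hb
      · exact absurd hadj (hi u ha v hb)
      · rcases Finset.mem_union.1 hv with h' | h'
        · have := h1 v h'; omega
        · exact absurd h' hb
      · rcases Finset.mem_union.1 hu with h' | h'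
        · have := h1 u h'; omega
        · exact absurd h' ha
      · rcases Finset.mem_union.1 hu with h' | h'
        · rcases Finset.mem_union.1 hv with h'' | h''
          · exact h2 u h' v h'' hadj
          · exact absurd h'' hb
        · exact absurd h' ha
    · intro i hi'
      by_cases hiN : i = N
      · subst hiN
        rw [← hc]
        congr 1
        ext v
        simp only [Finset.mem_filter, Finset.mem_union]
        constructor
        · rintro ⟨h, h'⟩
          by_contra hv
          rw [if_neg hv] at h'
          have := h1 v (h.resolve_right hv)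
          omega
        · intro h
          exact ⟨Or.inr h, by rw [if_pos h]⟩
      · rw [← h3 i (by omega)]
        congr 1
        ext v
        simp only [Finset.mem_filter, Finset.mem_union]
        constructor
        · rintro ⟨h, h'⟩
          have hv : v ∉ A := by
            intro hv
            rw [if_pos hv] at h'
            exact hiN h'.symm
          rw [if_neg hv] at h'
          exact ⟨h.resolve_right hv, h'⟩
        · rintro ⟨h, h'⟩
          have hv : v ∉ A := fun hv => hdis v hv h
          exact ⟨Or.inl h, by rw [if_neg hv]; exact h'⟩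

theorem Spl.dvd {S : Finset V} (h : Spl G t S) : t ∣ S.card := by
  induction h with
  | nil => simp
  | @cons S A hS hd hc hi ih =>
    rw [Finset.card_union_of_disjoint hd, hc]
    exact Dvd.dvd.add ih (dvd_refl t)

/-- a splitting contains a splitting with any smaller number of classes -/
theorem Spl.sub {S : Finset V} (h : Spl G t S) {m : ℕ} (hm : m * t ≤ S.card) :
    ∃ S' ⊆ S, Spl G t S' ∧ S'.card = m * t := by
  induction h generalizing m with
  | nil =>
    have : m * t = 0 := by simpa using hm
    exact ⟨∅, by simp, Spl.nil, by simp [this]⟩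
  | @cons S A hS hd hc hi ih =>
    by_cases h1 : m * t ≤ S.card
    · obtain ⟨S', h2, h3, h4⟩ := ih h1
      exact ⟨S', h2.trans Finset.subset_union_left, h3, h4⟩
    · rcases m with _ | m
      · exact absurd (by simp) h1
      · rw [Finset.card_union_of_disjoint hd, hc] at hm
        have h5 : m * t ≤ S.card := by rw [Nat.succ_mul] at hm; omega
        obtain ⟨S', h2, h3, h4⟩ := ih h5
        have h6 : Disjoint S' A := Finset.disjoint_of_subset_left h2 hd
        refine ⟨S' ∪ A, Finset.union_subset_union h2 (Finset.Subset.refl _), Spl.cons h3 h6 hc hi, ?_⟩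
        rw [Finset.card_union_of_disjoint h6, h4, hc]; ring

end Pool.Agent.CLW
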