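import Pool.Agent.Lib.MP_40c71d_co_h20.Mid

/-! # The case `|V| = 2 r + p`, `p` small -/

set_option autoImplicit false

open Finset

namespace Pool.Agent.CLW

variable {V : Type*} [Fintype V] [DecidableEq V] {G : SimpleGraph V} {q : ℕ}

/-- the obstruction to a pairing of the complement of `T` -/
def Obs (G : SimpleGraph V) (T A B : Finset V) : Prop :=
  A ∪ B = univ \ T ∧ Disjoint A B ∧ Odd A.card ∧ Odd B.card ∧ ∀ a ∈ A, ∀ b ∈ B, G.Adj a b

theorem Obs.symm {T A B : Finset V} (h : Obs G T A B) : Obs G T B A :=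
  ⟨by rw [Finset.union_comm]; exact h.1, h.2.1.symm, h.2.2.2.1, h.2.2.1,
    fun a ha b hb => (h.2.2.2.2 b hb a ha).symm⟩

variable [DecidableRel G.Adj]

theorem Obs.le {r : ℕ} (hr : ∀ v, G.degree v ≤ r) {T A B : Finset V} (h : Obs G T A B) :
    A.card ≤ r := by
  obtain ⟨b, hb⟩ : B.Nonempty := by rw [← Finset.card_pos]; exact h.2.2.2.1.pos
  refine le_trans ?_ (hr b)
  rw [← SimpleGraph.card_neighborFinset_eq_degree]
  apply Finset.card_le_card
  intro a ha
  rw [SimpleGraph.mem_neighborFinset]
  exact (h.2.2.2.2 a ha b hb).symm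

theorem Obs.card {T A B : Finset V} (h : Obs G T A B) : A.card + B.card + T.card = Fintype.card V := by
  have h1 := Finset.card_union_of_disjoint h.2.1
  rw [h.1, Finset.card_sdiff_of_subset (Finset.subset_univ _), Finset.card_univ] at h1
  have h2 : T.card ≤ Fintype.card V := Finset.card_le_univ T
  omega

theorem one_side {r k : ℕ} (hr : ∀ v, G.degree v ≤ r) {T A B T' A' B' S : Finset V}
    (h : Obs G T A B) (h' : Obs G T' A' B') (hS : S ⊆ A) (hS' : S ⊆ A' ∪ B')
    (hB : r ≤ B.card + k) (hSc : 2 * k < S.card) : S ⊆ A' ∨ S ⊆ B' := by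
  by_contra hcon
  rw [not_or, Finset.not_subset, Finset.not_subset] at hcon
  obtain ⟨⟨a, haS, haA'⟩, ⟨b, hbS, hbB'⟩⟩ := hcon
  have haB' : a ∈ B' := (Finset.mem_union.1 (hS' haS)).resolve_left haA'
  have hbA' : b ∈ A' := (Finset.mem_union.1 (hS' hbS)).resolve_right hbB'
  have h1 : (B ∪ (S ∩ A')).card ≤ r := by
    refine le_trans ?_ (hr a)
    rw [← SimpleGraph.card_neighborFinset_eq_degree]
    apply Finset.card_le_card
    intro x hx
    rw [SimpleGraph.mem_neighborFinset]
    rcases Finset.mem_union.1 hx with hx | hx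
    · exact h.2.2.2.2 a (hS haS) x hx
    · exact (h'.2.2.2.2 x (Finset.mem_inter.1 hx).2 a haB').symm
  have h2 : (B ∪ (S ∩ B')).card ≤ r := by
    refine le_trans ?_ (hr b)
    rw [← SimpleGraph.card_neighborFinset_eq_degree]
    apply Finset.card_le_card
    intro x hx
    rw [SimpleGraph.mem_neighborFinset]
    rcases Finset.mem_union.1 hx with hx | hx
    · exact h.2.2.2.2 b (hS hbS) x hx
    · exact h'.2.2.2.2 b hbA' x (Finset.mem_inter.1 hx).2
  have hd : ∀ C : Finset V, Disjoint B (S ∩ C) := fun C =>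
    Finset.disjoint_of_subset_right (Finset.inter_subset_left.trans hS) h.2.1.symm
  rw [Finset.card_union_of_disjoint (hd _)] at h1 h2
  have h3 : S.card ≤ (S ∩ A').card + (S ∩ B').card := by
    have : S = (S ∩ A') ∪ (S ∩ B') := by
      rw [← Finset.inter_union_distrib_left]
      exact (Finset.inter_eq_left.2 hS').symm
    calc S.card = ((S ∩ A') ∪ (S ∩ B')).card := by rw [← this]
      _ ≤ _ := Finset.card_union_le _ _
  omega

/-- the exchange argument -/
theorem exchange {r p : ℕ} (hr : ∀ v, G.degree v ≤ r) {T A B T' A' B' X X' : Finset V} {w : V}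
    (h : Obs G T A B) (h' : Obs G T' A' B') (hT : T.card = 3 * p) (hn : Fintype.card V = 2 * r + p)
    (hpr : 6 * p + 6 < r) (hXT : X ⊆ T) (hX'B : X' ⊆ B)
    (hTT : univ \ T' = ((univ \ T) \ X') ∪ X) (hX : X.card = 3) (hX' : X'.card = 3)
    (hw : w ∈ A) (hwX : ∀ x ∈ X, ¬ G.Adj w x) : False := by
  have hc := h.card
  have hA := h.le hr
  have hB := h.symm.le hr
  have hAdis : Disjoint A T := by
    rw [Finset.disjoint_left]
    intro v hv
    have : v ∈ univ \ T := by rw [← h.1]; exact Finset.mem_union_left _ hv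
    exact (Finset.mem_sdiff.1 this).2
  -- `A` lies on one side
  have hAsub : A ⊆ A' ∪ B' := by
    rw [h'.1, hTT]
    intro v hv
    apply Finset.mem_union_left
    rw [Finset.mem_sdiff, ← h.1]
    exact ⟨Finset.mem_union_left _ hv, fun hv' => Finset.disjoint_left.1 h.2.1 hv (hX'B hv')⟩
  -- the main argument for `A ⊆ A'`
  have main : ∀ A' B' : Finset V, Obs G T' A' B' → A ⊆ A' → False := by
    intro A' B' h' hAA'
    have hA' := h'.le hr
    have hBsub : B \ X' ⊆ A' ∪ B' := by
      rw [h'.1, hTT]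
      intro v hv
      rw [Finset.mem_sdiff] at hv
      apply Finset.mem_union_left
      rw [Finset.mem_sdiff, ← h.1]
      exact ⟨Finset.mem_union_right _ hv.1, hv.2⟩
    have hBc : (B \ X').card = B.card - 3 := by
      rw [Finset.card_sdiff_of_subset hX'B, hX']
    rcases one_side (k := 2 * p) hr h.symm h' Finset.sdiff_subset hBsub (by omega) (by omega) with h1 | h1
    · have h2 : A ∪ (B \ X') ⊆ A' := Finset.union_subset hAA' h1
      have h3 := Finset.card_le_card h2
      rw [Finset.card_union_of_disjoint (Finset.disjoint_of_subset_right Finset.sdiff_subset h.2.1)] at h3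
      omega
    · have hXA' : X ⊆ A' := by
        intro x hx
        have h2 : x ∈ A' ∪ B' := by
          rw [h'.1, hTT]; exact Finset.mem_union_right _ hx
        refine (Finset.mem_union.1 h2).resolve_right (fun h3 => ?_)
        exact hwX x hx (h'.2.2.2.2 w (hAA' hw) x h3)
      have hE : A' = A ∪ X := by
        apply Finset.Subset.antisymm
        · intro a ha
          have h2 : a ∈ ((univ \ T) \ X') ∪ X := by
            rw [← hTT, ← h'.1]; exact Finset.mem_union_left _ ha
          rcases Finset.mem_union.1 h2 with h3 | h3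
          · rw [Finset.mem_sdiff, ← h.1, Finset.mem_union] at h3
            rcases h3.1 with h4 | h4
            · exact Finset.mem_union_left _ h4
            · exact absurd (h1 (Finset.mem_sdiff.2 ⟨h4, h3.2⟩)) (Finset.disjoint_left.1 h'.2.1 ha)
          · exact Finset.mem_union_right _ h3
        · exact Finset.union_subset hAA' hXA'
      have h2 : A'.card = A.card + 3 := by
        rw [hE, Finset.card_union_of_disjoint (Finset.disjoint_of_subset_right hXT hAdis), hX]
      have h3 := h.2.2.1
      have h4 := h'.2.2.1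
      rw [Nat.odd_iff] at h3 h4
      omega
  rcases one_side (k := 2 * p) hr h h' (Finset.Subset.refl _) hAsub (by omega) (by omega) with h1 | h1
  · exact main A' B' h' h1
  · exact main B' A' h'.symm h1

theorem mono_triple (c : V → Fin q) (hq : 0 < q) {m : ℕ} {B : Finset V} (h : q * m ≤ B.card) :
    ∃ i, ∃ D ⊆ B, D.card = m ∧ ∀ v ∈ D, c v = i := by
  have h5 : (univ : Finset (Fin q)).Nonempty := ⟨⟨0, hq⟩, Finset.mem_univ _⟩
  obtain ⟨i, _, hi⟩ := Finset.exists_le_card_fiber_of_mul_le_card_of_maps_to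
    (s := B) (t := (univ : Finset (Fin q))) (f := c) (n := m)
    (fun _ _ => Finset.mem_univ _) h5 (by simpa using h)
  obtain ⟨D, hD, hDc⟩ := Finset.exists_subset_card_eq hi
  exact ⟨i, D, fun v hv => (Finset.mem_filter.1 (hD hv)).1, hDc,
    fun v hv => (Finset.mem_filter.1 (hD hv)).2⟩

/-- the case `|V| = 2 r + p`, `p` positive and small -/
theorem two_case {c : V → Fin q} (hc : ∀ u v, G.Adj u v → c u ≠ c v) {r p : ℕ}
    (hr : ∀ v, G.degree v ≤ r) (hq : 0 < q) (hn : Fintype.card V = 2 * r + p) (hp0 : 0 < p)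
    (hpr : 6 * p + 6 < r) (hqr : 3 * q + 2 * p ≤ r) (hqr' : 4 * p + 2 * q < r) :
    EquitablyColorable G r := by
  -- the splitting gives the colouring
  have concl : ∀ T : Finset V, Spl G 3 T → T.card = 3 * p → Spl G 2 (univ \ T) →
      EquitablyColorable G r := by
    intro T h1 h2 h3
    have e : r = p + (r - p) := by omega
    rw [e]
    refine eqcol_of_spl (t := 3) (t' := 2) (by omega) (by omega) (by omega) (by omega) h1 h3
      Finset.disjoint_sdiff (Finset.union_sdiff_of_subset (Finset.subset_univ _)) (by omega) ?_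
    rw [Finset.card_sdiff_of_subset (Finset.subset_univ _), Finset.card_univ, hn, h2]
    omega
  obtain ⟨Z, -, hZ, hZc⟩ := pure_classes (t := 3) hc ∅ hq (p - 1) (by simp; omega)
  have hrem : q * 4 ≤ (univ \ Z).card := by
    rw [Finset.card_sdiff_of_subset (Finset.subset_univ _), Finset.card_univ]; omega
  obtain ⟨i, D, hD, hDc, hDi⟩ := mono_triple c hq hrem
  obtain ⟨X, hXD, hXc⟩ := Finset.exists_subset_card_eq (s := D) (n := 3) (by omega)
  obtain ⟨w, hw⟩ : (D \ X).Nonempty := by
    rw [← Finset.card_pos, Finset.card_sdiff_of_subset hXD]; omega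
  rw [Finset.mem_sdiff] at hw
  have hdZ : ∀ v ∈ D, v ∉ Z := fun v hv => (Finset.mem_sdiff.1 (hD hv)).2
  have hZX : Disjoint Z X := by
    rw [Finset.disjoint_left]
    intro v hv hv'
    exact hdZ v (hXD hv') hv
  have hXi : ∀ u ∈ X, ∀ v ∈ X, ¬ G.Adj u v := fun u hu v hv hadj =>
    hc u v hadj ((hDi u (hXD hu)).trans (hDi v (hXD hv)).symm)
  have hT : Spl G 3 (Z ∪ X) := Spl.cons hZ hZX hXc hXi
  have hTc : (Z ∪ X).card = 3 * p := by
    rw [Finset.card_union_of_disjoint hZX, hZc, hXc]; omega
  have hrest : ∀ T : Finset V, T.card = 3 * p → (univ \ T).card = 2 * (r - p) := by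
    intro T hT
    rw [Finset.card_sdiff_of_subset (Finset.subset_univ _), Finset.card_univ, hn, hT]; omega
  rcases pairs_or hc hr (Z ∪ X) (hrest _ hTc) (by omega) with h1 | ⟨A, B, hAB⟩
  · exact concl _ hT hTc h1
  · have hobs : Obs G (Z ∪ X) A B := hAB
    have hwT : w ∈ univ \ (Z ∪ X) := by
      rw [Finset.mem_sdiff, Finset.mem_union, not_or]
      exact ⟨Finset.mem_univ _, hdZ w hw.1, hw.2⟩
    -- the main step, for `w ∈ A`
    have main : ∀ A B : Finset V, Obs G (Z ∪ X) A B → w ∈ A → EquitablyColorable G r := by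
      intro A B hobs hwA
      have hcard := hobs.card
      have hA := hobs.le hr
      obtain ⟨j, X', hX'B, hX'c, hX'j⟩ := mono_triple c hq (m := 3) (B := B) (by omega)
      have hX'T : ∀ v ∈ X', v ∉ Z ∪ X := by
        intro v hv
        have : v ∈ univ \ (Z ∪ X) := by rw [← hobs.1]; exact Finset.mem_union_right _ (hX'B hv)
        exact (Finset.mem_sdiff.1 this).2
      have hZX' : Disjoint Z X' := by
        rw [Finset.disjoint_left]
        intro v hv hv'
        exact hX'T v hv' (Finset.mem_union_left _ hv)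
      have hT' : Spl G 3 (Z ∪ X') := Spl.cons hZ hZX' hX'c (fun u hu v hv hadj =>
        hc u v hadj ((hX'j u hu).trans (hX'j v hv).symm))
      have hT'c : (Z ∪ X').card = 3 * p := by
        rw [Finset.card_union_of_disjoint hZX', hZc, hX'c]; omega
      rcases pairs_or hc hr (Z ∪ X') (hrest _ hT'c) (by omega) with h1 | ⟨A', B', hAB'⟩
      · exact concl _ hT' hT'c h1
      · exfalso
        have hobs' : Obs G (Z ∪ X') A' B' := hAB'
        refine exchange hr hobs hobs' hTc hn hpr Finset.subset_union_right hX'B ?_ hXc hX'c hwA ?_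
        · ext v
          simp only [Finset.mem_sdiff, Finset.mem_univ, true_and, Finset.mem_union, not_or]
          constructor
          · rintro ⟨h2, h3⟩
            by_cases h4 : v ∈ X
            · exact Or.inr h4
            · exact Or.inl ⟨⟨h2, h4⟩, h3⟩
          · rintro (⟨⟨h2, h3⟩, h4⟩ | h2)
            · exact ⟨h2, h4⟩
            · refine ⟨hdZ v (hXD h2), fun h3 => hX'T v h3 (Finset.mem_union_right _ h2)⟩
        · intro x hx hadj
          exact hc w x hadj ((hDi w hw.1).trans (hDi x (hXD hx)).symm)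
    rw [← hobs.1, Finset.mem_union] at hwT
    rcases hwT with hwT | hwT
    · exact main A B hobs hwT
    · exact main B A hobs.symm hwT

/-- the case `|V| = 2 r` -/
theorem zero_case {c : V → Fin q} (hc : ∀ u v, G.Adj u v → c u ≠ c v) {r : ℕ}
    (hr : ∀ v, G.degree v ≤ r) (hn : Fintype.card V = 2 * r) (hqr : 2 * q < r) :
    EquitablyColorable G r ∨ ∃ A B : Finset V, A ∪ B = univ ∧ Disjoint A B ∧ A.card = r ∧
      B.card = r ∧ Odd r ∧ ∀ a ∈ A, ∀ b ∈ B, G.Adj a b := by
  rcases pairs_or hc hr ∅ (N := r) (by rw [Finset.sdiff_empty, Finset.card_univ, hn]) (by omega) with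
    h1 | ⟨A, B, hAB⟩
  · left
    rw [Finset.sdiff_empty] at h1
    have := eqcol_of_spl (t := 2) (t' := 1) (N := r) (N' := 0) (by omega) (by omega) (by omega)
      (by omega) h1 Spl.nil (Finset.disjoint_empty_right _) (by simp)
      (by rw [Finset.card_univ, hn]; ring) (by simp)
    exact this
  · right
    have hobs : Obs G ∅ A B := hAB
    have h1 := hobs.card
    have h2 := hobs.le hr
    have h3 := hobs.symm.le hr
    rw [Finset.card_empty, hn] at h1
    have h4 : A.card = r := by omega
    have h5 : B.card = r := by omega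
    refine ⟨A, B, by rw [hobs.1, Finset.sdiff_empty], hobs.2.1, h4, h5, ?_, hobs.2.2.2.2⟩
    rw [← h4]; exact hobs.2.2.1

end Pool.Agent.CLW
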